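import Pool.Agent.Lib.MP_52f683_gt.CS.MK1

set_option autoImplicit false
set_option linter.unusedSectionVars false

open Set Topology Filter

namespace Pool.Agent.Lib.MP_52f683_gt

variable {S : Type*} [TopologicalSpace S] [T1Space S] [Infinite S]

section
variable (hS : Ctx S) (hL : LFin (univ : Set S))
include hS hL

/-- no mixing -/
lemma Ctx.no_mix {X c m B A a p A' a' p' : Set S} (hX : Whole X c m) (hB : B ⊆ X)
    (hm : ∀ B', ClopIn B' B → Disjoint B' (closure (Rem B)) → Crd (Rem B') → B' = ∅)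
    (hA : Whole A a p) (hA' : Whole A' a' p') (s1 : Sp X A) (s2 : Sp X A') (h : S ≃ₜ S)
    (e : h '' (B ∪ A) = B ∪ A') : h '' A ⊆ A' := by
  have t1 : Sp B A := s1.mono hB subset_rfl
  have t2 : Sp B A' := s2.mono hB subset_rfl
  have c1 : ClopIn (h '' A ∩ B) B := by
    have := (clopIn_of_sp t1.symm).image h
    rw [union_comm, e] at this
    exact this.trace subset_union_left
  have c2 : ClopIn (h.symm '' B ∩ A) A := by
    have := (clopIn_of_sp t2).image h.symm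
    rw [← e, img_symm_img] at this
    exact this.trace subset_union_right
  have c3 : Crd (Rem (h '' A ∩ B)) := by
    have := (hA.rem_crd (hL.mono (subset_univ _)) c2).image h
    rwa [img_rem, img_inter, img_img_symm, inter_comm] at this
  have c4 : Disjoint (h '' A ∩ B) (closure (Rem B)) := by
    refine disjoint_left.2 ?_
    rintro _ ⟨⟨x, hx, rfl⟩, -⟩ hy
    have h1 : h x ∈ closure (Rem (B ∪ A')) := by
      rw [rem_union t2]
      exact closure_mono subset_union_left hy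
    rw [← e, ← img_rem, ← img_cl, mem_img, rem_union t1, closure_union] at h1
    rcases h1 with h1 | h1
    · exact disjoint_left.1 t1.2 hx (cl_rem_sub B h1)
    · rw [hA.rem_eq (clopIn_self A)] at h1
      rw [hA.eq] at hx
      exact hx.2 (closure_minimal inter_subset_right hA.cl h1)
  intro y hy
  have h2 : y ∈ B ∪ A' := e ▸ image_mono subset_union_right hy
  exact h2.resolve_left fun h3 => (hm _ c1 c4 c3).subset ⟨hy, h3⟩

lemma Ctx.td_mark (hq : ∀ X c m : Set S, Whole X c m → ∀ x ∈ X, ¬ Disc (QC X x))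
    {n b a a' : Set S} (hW : World n b) (ha : Mem a) (ha' : Mem a') (f : a ∩ n ⊆ b)
    (f' : a' ∩ n ⊆ b) (n1 : Nwd (a' ∪ n) a) (n2 : Nwd (a ∪ n) a') (g : S ≃ₜ S) (g1 : g '' n = n)
    (g2 : g '' b = b) (g3 : g '' a' ∩ a ⊆ b) : a ∩ a' ⊆ b := by
  have hp : Mem (n ∪ a) := ⟨hW.cln.union ha.cl, hW.crn.union ha.crd,
    ha.ne.mono subset_union_right, hS.union_ne hW.cln ha.cl hW.sm ha.sm⟩
  have hg := ha'.image g
  have hm := hS.mem_union ha' hg
  have g4 : g '' a' ∩ (n ∪ a) ⊆ b := by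
    rintro y ⟨h1, h2 | h2⟩
    · rw [← g2]
      rw [← g1] at h2
      exact image_mono f' (img_inter g a' n ▸ ⟨h1, h2⟩)
    · exact g3 ⟨h1, h2⟩
  have cX : n ∪ a ⊆ closure ((n ∪ a) \ (a' ∪ g '' a')) := by
    refine union_subset (hW.nwd.trans (closure_mono ?_)) (n1.trans (closure_mono ?_))
    · rintro y ⟨h1, h2⟩
      exact ⟨Or.inl h1, fun h3 => h2 (h3.elim (fun h4 => f' ⟨h4, h1⟩) fun h4 => g4 ⟨h4, Or.inl h1⟩)⟩
    · rintro y ⟨h1, h2⟩
      exact ⟨Or.inr h1, fun h3 => h2 (h3.imp_right fun h4 => hW.sub (g3 ⟨h4, h1⟩))⟩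
  have hX : Whole ((n ∪ a) \ (a' ∪ g '' a')) (n ∪ a) (a' ∪ g '' a') :=
    ⟨hp, hm.cl, hm.crd, hm.sm, rfl, (hp.ne.mono cX).of_closure⟩
  obtain ⟨B, hB, dB, mB⟩ := hS.mark hL hX (hq _ _ _ hX)
  have cB : closure B = n ∪ a := (closure_minimal (hB.trans sdiff_subset) hp.cl).antisymm
    (cX.trans (closure_minimal dB isClosed_closure))
  have cA : closure (a' \ (n ∪ a)) = a' := (closure_minimal sdiff_subset ha'.cl).antisymm
    (by rw [union_comm]; exact n2)
  have hA : Whole (a' \ (n ∪ a)) a' (n ∪ a) :=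
    ⟨ha', hp.cl, hp.crd, hp.sm, rfl, (cA.symm ▸ ha'.ne : (closure _).Nonempty).of_closure⟩
  have s1 : Sp ((n ∪ a) \ (a' ∪ g '' a')) (a' \ (n ∪ a)) :=
    sp_of_closed hp.cl ha'.cl sdiff_subset sdiff_subset
      (disjoint_left.2 fun y hy h1 => hy.2 (Or.inl h1)) disjoint_sdiff_left
  have s2 : Sp ((n ∪ a) \ (a' ∪ g '' a')) (g '' (a' \ (n ∪ a))) := by
    refine sp_of_closed hp.cl hg.cl sdiff_subset (image_mono sdiff_subset)
      (disjoint_left.2 fun y hy h1 => hy.2 (Or.inr h1)) (disjoint_left.2 ?_)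
    rintro _ ⟨x, hx, rfl⟩ h1
    have h2 := hW.sub (g4 ⟨mem_image_of_mem g hx.1, h1⟩)
    rw [← g1, mem_img] at h2
    exact hx.2 (Or.inl h2)
  have t1 := s1.mono hB subset_rfl
  have t2 := s2.mono hB subset_rfl
  obtain ⟨h, e⟩ := hS.thin.glueE (Eqv.rfl' B) ⟨g, rfl⟩ t1 t2
  have m1 := hS.no_mix hL hX hB mB hA (hA.image g) s1 s2 h e
  have m2 := hS.no_mix hL hX hB mB (hA.image g) hA s2 s1 h.symm (by rw [← e, img_symm_img])
  have e1 : h '' (a' \ (n ∪ a)) = g '' (a' \ (n ∪ a)) := by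
    refine m1.antisymm ?_
    have := image_mono (f := h) m2
    rwa [img_img_symm] at this
  have e2 : h '' B = B := by
    have := img_diff h (B ∪ a' \ (n ∪ a)) (a' \ (n ∪ a))
    rwa [e, e1, union_sdiff_right, union_sdiff_right, t1.disj.sdiff_eq_left,
      t2.disj.sdiff_eq_left] at this
  have e3 : h '' (n ∪ a) = n ∪ a := by rw [← cB, img_cl, e2]
  have e4 : h '' a' = g '' a' := by
    have := img_cl h (a' \ (n ∪ a))
    rwa [e1, ← img_cl, cA] at this
  rintro x ⟨h1, h2⟩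
  obtain ⟨y, hy, e5⟩ : g x ∈ h '' a' := e4 ▸ mem_image_of_mem g h2
  have h3 : y ∈ n ∪ a := by
    by_contra h4
    have h5 : h y ∈ h '' (a' \ (n ∪ a)) := mem_image_of_mem h ⟨hy, h4⟩
    rw [e1, e5, mem_img] at h5
    exact h5.2 (Or.inr h1)
  have h6 : g x ∈ n ∪ a := by
    rw [← e5, ← e3]
    exact mem_image_of_mem h h3
  have h7 := g4 ⟨mem_image_of_mem g h2, h6⟩
  rwa [← g2, mem_img] at h7

end

end Pool.Agent.Lib.MP_52f683_gt
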