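import Pool.Agent.Lib.MP_52f683_gt.CS.S21
import Pool.Agent.Lib.MP_52f683_gt.CS.MK
import Pool.Agent.Lib.MP_52f683_gt.CS.TH
import Pool.Agent.Lib.MP_52f683_gt.CS.EN

set_option autoImplicit false
set_option linter.unusedSectionVars false

open Set Topology Filter

namespace Pool.Agent.Lib.MP_52f683_gt

variable {S : Type*} [TopologicalSpace S] [T1Space S] [Infinite S]

section
variable (hS : Ctx S) (hL : LFin (univ : Set S))
include hS hL

lemma Ctx.rel_dt {n b : Set S} (hW : World n b) (hb : Mem b) : ∃ (c : Set S) (γ : S ≃ₜ S),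
    Mem c ∧ c ∩ n ⊆ b ∧ ¬ c ⊆ n ∧ γ '' n = n ∧ γ '' b = b ∧ γ '' c ∩ c ⊆ b := by
  obtain ⟨x, hx⟩ := hS.exists_off hW.sm
  obtain ⟨c1, h1, x1, f1⟩ := hS.h1 hL hb hW.cln hW.sm hx
  obtain ⟨z, hz⟩ := hS.exists_off (hS.union_ne hW.cln h1.cl hW.sm h1.sm)
  obtain ⟨γ, g1, g2, rfl⟩ := hS.world_move hW (fun k => hz (Or.inl k)) hx
  have h3 := h1.image γ
  obtain ⟨c2, h2, x2, f2⟩ := hS.h1 hL (x := γ z) hb (hW.cln.union h3.cl)
    (hS.union_ne hW.cln h3.cl hW.sm h3.sm)
    (fun k => k.elim hx fun k => hz (Or.inr ((mem_img γ).1 k)))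
  refine ⟨c1 ∩ c2, γ, ⟨h1.cl.inter h2.cl, hL _ _ h1 h2 (subset_univ _) (subset_univ _),
    ⟨_, x1, x2⟩, fun e => h1.sm (eq_univ_of_univ_subset (e ▸ inter_subset_left))⟩,
    fun y hy => f1 ⟨hy.1.1, hy.2⟩, fun k => hx (k ⟨x1, x2⟩), g1, g2, fun y hy => ?_⟩
  exact f2 ⟨hy.2.2, Or.inr (image_mono inter_subset_left hy.1)⟩

/-- the end of the proof from disjointness of transversal pairs -/
lemma Ctx.kill_td (hR : HasR S) {n b : Set S} (hW : World n b) (hb : Mem b)
    (td : ∀ a a' : Set S, Mem a → Mem a' → a ∩ n ⊆ b → a' ∩ n ⊆ b → Nwd (a' ∪ n) a →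
      Nwd (a ∪ n) a' → ∀ g : S ≃ₜ S, g '' n = n → g '' b = b → g '' a' ∩ a ⊆ b → a ∩ a' ⊆ b) :
    False := by
  obtain ⟨c, γ, hc, f, out, g1, g2, g3⟩ := hS.rel_dt hL hW hb
  have hX : Whole (c \ n) c n := ⟨hc, hW.cln, hW.crn, hW.sm, rfl, nonempty_of_not_subset out⟩
  have ed := ed_of_perp hc hW.cln rfl fun s s' hs hs' a a' n1 n2 =>
    (td s s' hs hs' ((inter_subset_inter_left _ a).trans f)
      ((inter_subset_inter_left _ a').trans f) n1 n2 γ g1 g2
      ((inter_subset_inter (image_mono a') a).trans g3)).trans hW.sub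
  refine hS.the_end hX (hL.mono (subset_univ _)) (fun x hx => ?_)
    (tot_of_td hc.cl rfl ed fun x hx y hy => ?_)
  · refine (subset_singleton_iff.2 fun y hy => ?_).antisymm
      (singleton_subset_iff.2 ⟨hx, fun _ _ k => k⟩)
    by_contra hne
    obtain ⟨W, w1, w2, w3⟩ := hR c {y} x hc (disc_single y) (Ne.symm hne)
    exact disjoint_singleton_right.1 w3 (closure_mono (inter_subset_inter_left _ sdiff_subset)
      (hy.2 _ (ed W w1) ⟨subset_closure ⟨hx, w2⟩, hx⟩).1)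
  · obtain ⟨k, k1, k2, k3⟩ := hS.world_move hW hx.2 hy.2
    refine ⟨k, k1, k3, ?_⟩
    have hk := hc.image k
    rcases ((c \ n) \ k '' c).eq_empty_or_nonempty with e | e
    · simp [e]
    rcases (k '' (c \ n) \ c).eq_empty_or_nonempty with e' | e'
    · simp [e']
    have a0 : (c \ n) \ k '' c ⊆ c := sdiff_subset.trans sdiff_subset
    have a0' : k '' (c \ n) \ c ⊆ k '' c := sdiff_subset.trans (image_mono sdiff_subset)
    have a := closure_minimal a0 hc.cl
    have a' := closure_minimal a0' hk.cl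
    have s1 : k.symm '' n = n := by rw [← k1, img_symm_img, k1]
    have s2 : k.symm '' b = b := by rw [← k2, img_symm_img, k2]
    refine (td _ _ (mem_of_crd (hX.crdX.diff_closed hk.cl) e hc.cl hc.sm a0)
      (mem_of_crd ((hX.crdX.image k).diff_closed hc.cl) e' hk.cl hk.sm a0')
      ((inter_subset_inter_left _ a).trans f) ((inter_subset_inter_left _ a').trans ?_)
      (closure_mono fun z hz => ⟨subset_closure hz, fun w => w.elim (fun w => hz.2 (a' w)) hz.1.2⟩)
      (closure_mono fun z hz => ⟨subset_closure hz, fun w => w.elim (fun w => hz.2 (a w)) ?_⟩)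
      (k.symm.trans γ) (by rw [img_trans, s1, g1]) (by rw [img_trans, s2, g2])
      ((inter_subset_inter ?_ a).trans g3)).trans hW.sub
    · rw [← k1, ← k2, ← img_inter]
      exact image_mono f
    · have w := hz.1
      rw [img_diff, k1] at w
      exact w.2
    · rw [img_trans]
      exact image_mono ((image_mono a').trans (img_symm_img k c).subset)

theorem Ctx.lf_kill (hN : NN S) (hR : HasR S) : False := by
  obtain ⟨n, hn⟩ := hS.exists_mem
  obtain ⟨C, hC, s1, w1⟩ := hN n hn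
  obtain ⟨C', hC', s2, w2⟩ := hN C hC
  obtain ⟨b, hb, s3, w3⟩ := hN C' hC'
  have hW : World n b := ⟨hn.cl, hn.crd, hn.sm, hb.cl, hb.crd, s3.trans (s2.trans s1),
    w1.mono (s3.trans s2)⟩
  refine hS.kill_td hL hR hW hb fun a a' ha ha' f f' n1 n2 g g1 g2 g3 => ?_
  by_cases h : ∃ (V c m : Set S) (x : S), Whole V c m ∧ Sharp V x
  · obtain ⟨V, c, m, x, hV, hs⟩ := h
    exact hS.td_sharp hL hV hs hn hC hC' hb s1 s2 s3 w1 w2 w3 ha ha' f f' n1 n2 g g1 g2 g3
  · refine hS.td_mark hL (fun X c m hX x hx hd => ?_) hW ha ha' f f' n1 n2 g g1 g2 g3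
    obtain ⟨X', c', m', h1, h2⟩ := hS.sharp_of_disc hL hX hx hd
    exact h ⟨X', c', m', x, h1, h2⟩

end

end Pool.Agent.Lib.MP_52f683_gt
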