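import Pool.Agent.Lib.MP_52f683_gt.F.BasicTmp

-- part Pool.Agent.Lib.MP_52f683_gt.CS.CT1
section

set_option autoImplicit false
set_option linter.unusedSectionVars false

open Set Topology Filter

namespace Pool.Agent.Lib.MP_52f683_gt

variable {S : Type*} [TopologicalSpace S] [T1Space S] [Infinite S]

lemma ct1_rem {A F : Set S} (hA : IsClosed A) : Rem (A \ F) ⊆ F := fun _ hx =>
  by_contra fun h => hx.2 ⟨closure_minimal sdiff_subset hA hx.1, h⟩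

lemma ct1_pt {a A b : Set S} {e : S} (ha : Crd a) (hb : IsClosed b) (he : e ∈ a) (he' : e ∉ b)
    (h : a ⊆ A) : e ∈ Rem (A \ (b ∪ {e})) :=
  ⟨closure_mono (fun y hx => (Set.mem_sdiff y).2 ⟨h hx.1.1, fun k => k.elim hx.1.2 hx.2⟩)
    (mem_cl_diff_single (der_diff_closed hb he' (ha he))), fun k => k.2 (Or.inr rfl)⟩

/-- counting isolated points of remainders -/
lemma Ctx.cnt (hS : Ctx S) {n b a U : Set S} {e : S} (hW : World n b) (ha : IsClosed a)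
    (ha' : Crd a) (hU : IsClosed U) (hU' : Crd U) (hea : e ∈ a) (heU : e ∈ U) (hen : e ∉ n)
    (h1 : U ∩ n ⊆ b) (h2 : U ∩ a ⊆ b ∪ {e}) (g : S ≃ₜ S) (hg : g '' b = b)
    (h3 : g '' U ∩ n ⊆ b) (h4 : g '' U ∩ a ⊆ b) : False := by
  have heb : e ∉ b := fun h => hen (hW.sub h)
  have hgb : g e ∉ b := fun h => heb ((mem_img g).1 (hg.symm ▸ h))
  have han := ha.union hW.cln
  have k1 : ∀ x, x ∈ a ∪ n → x ∈ U → x ∈ b ∪ {e} := fun x hx hx' =>
    hx.elim (fun h => h2 ⟨hx', h⟩) fun h => Or.inl (h1 ⟨hx', h⟩)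
  have k2 : ∀ x, x ∈ a ∪ n → x ∈ g '' U → x ∈ b := fun x hx hx' =>
    hx.elim (fun h => h4 ⟨hx', h⟩) fun h => h3 ⟨hx', h⟩
  have s1 : Sp ((a ∪ n) \ (b ∪ {e})) (U \ (b ∪ {e})) :=
    sp_of_closed han hU sdiff_subset sdiff_subset
      (disjoint_left.2 fun x hx hx' => hx.2 (k1 x hx.1 hx'))
      (disjoint_left.2 fun x hx hx' => hx.2 (k1 x hx' hx.1))
  have s2 : Sp ((a ∪ n) \ (b ∪ {e})) (g '' (U \ (b ∪ {e}))) := by
    refine sp_of_closed han (g.isClosed_image.2 hU) sdiff_subset (image_mono sdiff_subset)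
      (disjoint_left.2 fun x hx hx' => hx.2 (Or.inl (k2 x hx.1 hx'))) (disjoint_left.2 ?_)
    rintro _ ⟨y, hy, rfl⟩ hx
    exact hy.2 (Or.inl ((mem_img g).1 (hg.symm ▸ k2 _ hx ⟨y, hy.1, rfl⟩)))
  obtain ⟨h, hh⟩ := hS.thin.glueE (Eqv.rfl' _) ⟨g, rfl⟩ s1 s2
  have e1 := congrArg (fun A => Iso (Rem A)) hh
  simp only [← img_rem, ← img_iso, rem_union s1, rem_union s2] at e1
  have r1 : b ⊆ Rem ((a ∪ n) \ (b ∪ {e})) := fun x hx =>
    ⟨closure_mono (fun y hy => (Set.mem_sdiff y).2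
      ⟨Or.inr hy.1, fun k => k.elim hy.2 fun k => hen (k ▸ hy.1)⟩) (hW.nwd (hW.sub hx)), fun k => k.2 (Or.inl hx)⟩
  have r2 : Iso (Rem ((a ∪ n) \ (b ∪ {e})) ∪ Rem (U \ (b ∪ {e}))) ⊆ {e} := fun x hx =>
    (union_subset (ct1_rem han) (ct1_rem hU) hx.1).resolve_left fun k =>
      hx.2 (der_mono (r1.trans subset_union_left) (hW.crb k))
  have r3 : derivedSet (Rem ((a ∪ n) \ (b ∪ {e})) ∪ g '' Rem (U \ (b ∪ {e}))) ⊆ b := by
    refine (der_sub_of_fin (B := b) ((toFinite {e, g e}).subset ?_)).trans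
      (der_sub_closed hW.clb subset_rfl)
    rintro x ⟨hx | ⟨y, hy, rfl⟩, hx'⟩
    · exact Or.inl ((ct1_rem han hx).resolve_left hx')
    · exact Or.inr (congrArg g ((ct1_rem hU hy).resolve_left fun k => hx' (hg ▸ ⟨y, k, rfl⟩)))
  have r4 : ∀ x ∈ Rem ((a ∪ n) \ (b ∪ {e})) ∪ g '' Rem (U \ (b ∪ {e})), x ∉ b → x = h e := by
    intro x hx hx'
    obtain ⟨y, hy, rfl⟩ := e1.ge ⟨hx, fun k => hx' (r3 k)⟩
    exact congrArg h (r2 hy)
  have r5 := (r4 _ (Or.inr ⟨e, ct1_pt hU' hW.clb heU heb subset_rfl, rfl⟩) hgb).trans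
    (r4 _ (Or.inl (ct1_pt ha' hW.clb hea heb subset_union_left)) heb).symm
  exact hgb (h4 ⟨⟨e, heU, rfl⟩, r5.symm ▸ hea⟩)

/-- cutting along the intersection -/
lemma Ctx.mob0 (hS : Ctx S) {t1 t2 Y : Set S} (h1 : IsClosed t1) (h2 : IsClosed t2)
    (n1 : Nwd t2 t1) (n2 : Nwd t1 t2) (g : S ≃ₜ S) (hY : Mem Y) (d1 : Disjoint t1 (g '' t2))
    (d2 : Disjoint Y (t1 ∪ g '' t2)) : ∃ Y', Mem Y' ∧ Disjoint Y' (t1 ∪ t2) := by
  have c1 : closure (t1 \ t2) = t1 := (closure_minimal sdiff_subset h1).antisymm n1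
  have c2 : closure (t2 \ t1) = t2 := (closure_minimal sdiff_subset h2).antisymm n2
  obtain ⟨h, hh⟩ := hS.thin.glueE (Eqv.rfl' (t1 \ t2)) (B := t2 \ t1) ⟨g, rfl⟩
    (sp_of_closed h1 h2 sdiff_subset sdiff_subset disjoint_sdiff_left disjoint_sdiff_left)
    (sp_of_closed h1 (g.isClosed_image.2 h2) sdiff_subset (image_mono sdiff_subset)
      (d1.mono_left sdiff_subset) (d1.symm.mono_left (image_mono sdiff_subset)))
  have e := congrArg closure hh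
  rw [← img_cl, closure_union, closure_union, ← img_cl, c1, c2] at e
  refine ⟨h.symm '' Y, hY.image _, (img_disj h).1 ?_⟩
  rwa [img_img_symm, e]

end Pool.Agent.Lib.MP_52f683_gt
end

-- part Pool.Agent.Lib.MP_52f683_gt.CS.CT
section

set_option autoImplicit false
set_option linter.unusedSectionVars false

open Set Topology Filter

namespace Pool.Agent.Lib.MP_52f683_gt

variable {S : Type*} [TopologicalSpace S] [T1Space S] [Infinite S]

lemma ct_rem {P Q Z n b : Set S} (hP : IsClosed P) (hZ : P ⊆ Z) (f : Z ∩ n ⊆ b) :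
    Rem ((P \ Q) \ n) ⊆ b ∪ (P ∩ Q) := by
  rintro x ⟨h1, h2⟩
  have hx : x ∈ P := hP.closure_subset_iff.2 (fun _ h => h.1.1) h1
  by_cases l : x ∈ n
  · exact .inl (f ⟨hZ hx, l⟩)
  · exact .inr ⟨hx, not_not.1 fun k => h2 ⟨⟨hx, k⟩, l⟩⟩

lemma ct_der {U Y n : Set S} {p : S} (hY : IsClosed Y) (hn : IsClosed n) (h1 : p ∉ n)
    (h2 : p ∈ derivedSet (U \ Y)) :
    p ∈ derivedSet ((closure (U \ Y) \ closure (Y \ U)) \ n) :=
  derivedSet_mono _ _ (fun _ hx => by exact ⟨⟨subset_closure hx.1, fun k =>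
    hx.1.2 (hY.closure_subset_iff.2 sdiff_subset k)⟩, hx.2⟩) (der_diff_closed hn h1 h2)

/-- the triple lemma -/
lemma Ctx.te (hS : Ctx S) {n b U t1 t2 : Set S} {e : S} (hW : World n b) (hU : Mem U)
    (h1 : Mem t1) (h2 : Mem t2) (fU : U ∩ n ⊆ b) (f1 : t1 ∩ n ⊆ b) (f2 : t2 ∩ n ⊆ b)
    (heU : e ∈ U) (he1 : e ∈ t1) (he2 : e ∈ t2) (hen : e ∉ n) (h3 : U ∩ t1 ∩ t2 ⊆ b ∪ {e})
    (i1 : e ∉ derivedSet (U ∩ t1)) (i2 : e ∉ derivedSet (U ∩ t2))
    (g : S ≃ₜ S) (hg : g '' b = b) (g1 : g '' (t1 ∪ t2) ∩ (n ∪ U) ⊆ b) :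
    ∃ (h : S ≃ₜ S) (u y : Set S), Mem u ∧ Mem y ∧ u ⊆ U ∧ y ⊆ t1 ∪ t2 ∧ g e ∈ h '' u ∧
      g e ∈ h '' y ∧ h '' u ∩ h '' y ⊆ b ∪ {g e} ∧
      ((h '' u ⊆ g '' t1 ∧ h '' y ⊆ g '' t2) ∨ (h '' u ⊆ g '' t2 ∧ h '' y ⊆ g '' t1)) := by
  have hY := hS.mem_union h1 h2
  have fY : (t1 ∪ t2) ∩ n ⊆ b := fun x hx => hx.1.elim (fun k => f1 ⟨k, hx.2⟩) fun k => f2 ⟨k, hx.2⟩
  have iY : e ∉ derivedSet (U ∩ (t1 ∪ t2)) := by
    rw [inter_union_distrib_left, derivedSet_union]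
    exact fun k => k.elim i1 i2
  have sU : closure (U \ (t1 ∪ t2)) ⊆ U := hU.cl.closure_subset_iff.2 sdiff_subset
  have sY : closure ((t1 ∪ t2) \ U) ⊆ t1 ∪ t2 := hY.cl.closure_subset_iff.2 sdiff_subset
  have eU : e ∈ closure (U \ (t1 ∪ t2)) :=
    der_sub_cl (der_mono (fun x hx => by exact ⟨hx.1, fun k => hx.2 ⟨hx.1, k⟩⟩)
      (der_diff (hU.crd heU) iY))
  have r2 := ct_rem (Q := closure ((t1 ∪ t2) \ U)) isClosed_closure sU fU
  have r3 := ct_rem (Q := closure (U \ (t1 ∪ t2))) isClosed_closure sY fY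
  have d2 := fun p => ct_der (U := U) (p := p) hY.cl hW.cln
  have d3 := fun p => ct_der (U := t1 ∪ t2) (p := p) hU.cl hW.cln
  have e3 : ∀ t, Mem t → e ∈ t → t ⊆ t1 ∪ t2 → e ∉ derivedSet (U ∩ t) → e ∈ derivedSet
      (((closure ((t1 ∪ t2) \ U) \ closure (U \ (t1 ∪ t2))) \ n) ∩ t) := fun t ht he hs hi =>
    der_mono (fun x hx => by
      exact ⟨⟨⟨subset_closure ⟨hs hx.1.1, fun k => hx.1.2 ⟨k, hx.1.1⟩⟩, fun k =>
        hx.1.2 ⟨sU k, hx.1.1⟩⟩, hx.2⟩, hx.1.1⟩)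
      (der_diff_closed hW.cln hen (der_diff (ht.crd he) hi))
  have e31 := e3 t1 h1 he1 subset_union_left i1
  have e32 := e3 t2 h2 he2 subset_union_right i2
  have s23 : Sp ((closure (U \ (t1 ∪ t2)) \ closure ((t1 ∪ t2) \ U)) \ n)
      ((closure ((t1 ∪ t2) \ U) \ closure (U \ (t1 ∪ t2))) \ n) :=
    sp_of_closed isClosed_closure isClosed_closure (fun _ h => h.1.1) (fun _ h => h.1.1)
      (disjoint_left.2 fun _ h => h.1.2) (disjoint_left.2 fun _ h => h.1.2)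
  have a2 : ∀ x ∈ (closure (U \ (t1 ∪ t2)) \ closure ((t1 ∪ t2) \ U)) \ n, x ∈ U ∧ x ∉ n :=
    fun x h => ⟨sU h.1.1, h.2⟩
  have a3 : ∀ x ∈ (closure ((t1 ∪ t2) \ U) \ closure (U \ (t1 ∪ t2))) \ n,
      x ∈ t1 ∪ t2 ∧ x ∉ n := fun x h => ⟨sY h.1.1, h.2⟩
  have eA : e ∉ (closure ((t1 ∪ t2) \ U) \ closure (U \ (t1 ∪ t2))) \ n := fun h => h.1.2 eU
  generalize (closure (U \ (t1 ∪ t2)) \ closure ((t1 ∪ t2) \ U)) \ n = A2 at *
  generalize (closure ((t1 ∪ t2) \ U) \ closure (U \ (t1 ∪ t2))) \ n = A3 at *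
  have gb : ∀ x, g x ∈ b ↔ x ∈ b := fun x => by rw [← mem_img g (A := b) (x := x), hg]
  have cg : ∀ (k : S ≃ₜ S) (t : Set S), IsClosed t → IsClosed (k '' t) := fun k t =>
    k.isClosed_image.2
  have off : ∀ x ∈ t1 ∪ t2, x ∉ n → g x ∉ n ∪ U := fun x hx hn k =>
    hn (hW.sub ((gb x).1 (g1 ⟨mem_image_of_mem _ hx, k⟩)))
  have s12 : Sp (n \ b) A2 := sp_of_closed hW.cln hU.cl sdiff_subset (fun x h => (a2 x h).1)
    (disjoint_left.2 fun x h k => h.2 (fU ⟨k, h.1⟩)) (disjoint_left.2 fun x h => (a2 x h).2)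
  have s13 : Sp (n \ b) A3 := sp_of_closed hW.cln hY.cl sdiff_subset (fun x h => (a3 x h).1)
    (disjoint_left.2 fun x h k => h.2 (fY ⟨k, h.1⟩)) (disjoint_left.2 fun x h => (a3 x h).2)
  have cnU := hW.cln.union hU.cl
  have sub : n \ b ∪ A2 ⊆ n ∪ U := union_subset_union sdiff_subset fun x h => (a2 x h).1
  have s' : Sp (n \ b ∪ A2) (g '' A3) :=
    sp_of_closed cnU (cg g _ hY.cl) sub (image_mono fun x h => (a3 x h).1)
      (disjoint_left.2 fun x h k => h.elim (fun l => l.2 (g1 ⟨k, .inl l.1⟩)) fun l =>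
        (a2 x l).2 (hW.sub (g1 ⟨k, .inr (a2 x l).1⟩)))
      (disjoint_left.2 fun _ ⟨x, h, k⟩ => k ▸ off x (a3 x h).1 (a3 x h).2)
  obtain ⟨h, hh⟩ := hS.thin.glueE (Eqv.rfl' _) ⟨g, rfl⟩ (s13.union_left s23) s'
  have r1 : Rem (n \ b) = b := by
    rw [Rem, hW.clP, sdiff_sdiff_cancel_left hW.sub]
  have R : Rem (n \ b ∪ A2 ∪ A3) = b ∪ Rem A2 ∪ Rem A3 := by
    rw [rem_union (s13.union_left s23), rem_union s12, r1]
  have R' : h '' (b ∪ Rem A2 ∪ Rem A3) = b ∪ Rem A2 ∪ g '' Rem A3 := by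
    rw [← R, img_rem, hh, rem_union s', rem_union s12, r1, img_rem]
  have c2 : closure A2 ⊆ U := hU.cl.closure_subset_iff.2 fun x h => (a2 x h).1
  have ge := off e (.inl he1) hen
  obtain ⟨p, hp⟩ := h.surjective (g e)
  have pI : p ∈ Iso (b ∪ Rem A2 ∪ Rem A3) := by
    rw [← mem_img h, img_iso, R', hp]
    refine ⟨.inr (mem_image_of_mem _ ⟨der_sub_cl (der_mono inter_subset_left e31), eA⟩), ?_⟩
    rw [derivedSet_union, ← img_der, Set.mem_union, mem_img]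
    refine fun k => k.elim (fun k => ge (der_sub_closed cnU
      (union_subset_union hW.sub fun x hx => c2 hx.1) k)) fun k => ?_
    have := der_mono r3 k
    rw [derivedSet_union] at this
    exact this.elim (fun l => hen (der_sub_closed hW.cln hW.sub l)) fun l =>
      iY (der_mono (fun x hx => by exact ⟨sU hx.2, sY hx.1⟩) l)
  have pb : p ∉ b := fun k => pI.2 (der_mono (fun x hx => .inl (.inl hx)) (hW.crb k))
  have pUY : p ∈ closure (U \ (t1 ∪ t2)) ∧ p ∈ closure ((t1 ∪ t2) \ U) := by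
    rcases pI.1 with (k | k) | k
    · exact absurd k pb
    · exact (r2 k).resolve_left pb
    · exact ((r3 k).resolve_left pb).symm
  have pn : p ∉ n := fun k => pb (fU ⟨sU pUY.1, k⟩)
  have p2 := d2 p pn ((mem_cl_iff.1 pUY.1).resolve_left fun k => k.2 (sY pUY.2))
  have p3 := d3 p pn ((mem_cl_iff.1 pUY.2).resolve_left fun k => k.2 (sU pUY.1))
  have row : ∀ A, A ⊆ n \ b ∪ A2 ∪ A3 → p ∈ derivedSet A →
      p ∈ derivedSet (A ∩ h ⁻¹' (g '' t1)) ∨ p ∈ derivedSet (A ∩ h ⁻¹' (g '' t2)) := by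
    intro A hA k
    rw [← Set.mem_union, ← derivedSet_union]
    refine der_mono (fun x hx => ?_)
      (der_diff_closed (cnU.preimage h.continuous) (fun l => ge (hp ▸ l)) k)
    have l := mem_image_of_mem h (hA hx.1)
    rw [hh] at l
    obtain ⟨z, z1, z2⟩ := l.resolve_left fun l => hx.2 (sub l)
    exact (a3 z z1).1.imp (fun l => ⟨hx.1, z, l, z2⟩) fun l => ⟨hx.1, z, l, z2⟩
  have col : ∀ t, e ∈ derivedSet (A3 ∩ t) →
      p ∈ derivedSet (A2 ∩ h ⁻¹' (g '' t)) ∨ p ∈ derivedSet (A3 ∩ h ⁻¹' (g '' t)) := by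
    intro t k
    have l : p ∈ derivedSet (h.symm '' (g '' (A3 ∩ t))) := by
      rw [← img_der, ← img_der]
      exact ⟨g e, mem_image_of_mem _ k, h.symm_apply_eq.2 hp.symm⟩
    rw [← Set.mem_union, ← derivedSet_union]
    refine der_mono ?_ (der_diff_closed hW.cln pn l)
    rintro _ ⟨⟨_, ⟨z, z1, rfl⟩, rfl⟩, z2⟩
    have l1 : h (h.symm (g z)) ∈ g '' t := ⟨z, z1.2, (h.apply_symm_apply _).symm⟩
    have l2 : h.symm (g z) ∈ n \ b ∪ A2 ∪ A3 := by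
      rw [← mem_img h, hh, h.apply_symm_apply]
      exact .inr (mem_image_of_mem _ z1.1)
    rcases l2 with (l2 | l2) | l2
    · exact absurd l2.1 z2
    · exact .inl ⟨l2, l1⟩
    · exact .inr ⟨l2, l1⟩
  have fin : ∀ s t : Set S, IsClosed s → IsClosed t → s ⊆ t1 ∪ t2 → s ∩ t ⊆ t1 ∩ t2 →
      p ∈ derivedSet (A2 ∩ h ⁻¹' (g '' s)) → p ∈ derivedSet (A3 ∩ h ⁻¹' (g '' t)) →
      ∃ u y : Set S, (Mem u ∧ Mem y ∧ u ⊆ U ∧ y ⊆ t1 ∪ t2 ∧ g e ∈ h '' u ∧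
        g e ∈ h '' y ∧ h '' u ∩ h '' y ⊆ b ∪ {g e}) ∧ h '' u ⊆ g '' s ∧ h '' y ⊆ g '' t := by
    intro s t hs ht k0 k1 k2 k3
    have u1 : A2 ∩ h ⁻¹' (g '' s) ⊆ U := fun x hx => (a2 x hx.1).1
    have y1 : A3 ∩ h ⁻¹' (g '' t) ⊆ t1 ∪ t2 := fun x hx => (a3 x hx.1).1
    have u2 := der_sub_closed ((cg g s hs).preimage h.continuous) (inter_subset_right (s := A2))
    have y2 := der_sub_closed ((cg g t ht).preimage h.continuous) (inter_subset_right (s := A3))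
    refine ⟨_, _, ⟨hS.mem_der hU.cl hU.sm u1 ⟨p, k2⟩, hS.mem_der hY.cl hY.sm y1 ⟨p, k3⟩,
      der_sub_closed hU.cl u1, der_sub_closed hY.cl y1, ⟨p, k2, hp⟩, ⟨p, k3, hp⟩, ?_⟩,
      image_subset_iff.2 u2, image_subset_iff.2 y2⟩
    rw [← img_inter]
    rintro _ ⟨x, ⟨x2, x3⟩, rfl⟩
    have l : x ∈ b ∪ Rem A2 ∪ Rem A3 := .inl (.inr ⟨der_sub_cl (der_mono inter_subset_left x2),
      fun k => disjoint_left.1 s23.1 k (der_sub_cl (der_mono inter_subset_left x3))⟩)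
    rw [← mem_img h, R'] at l
    rcases l with (l | l) | ⟨z, z1, z2⟩
    · exact .inl l
    · exact .inl (g1 ⟨image_mono k0 (u2 x2), .inr (c2 l.1)⟩)
    · have z3 := k1 (a := z) ⟨(mem_img g).1 (by rw [z2]; exact u2 x2),
        (mem_img g).1 (by rw [z2]; exact y2 x3)⟩
      rw [← z2]
      rcases (r3 z1).elim .inl fun l => h3 ⟨⟨sU l.2, z3.1⟩, z3.2⟩ with l | l
      · exact .inl ((gb z).2 l)
      · exact .inr (congrArg g l)
  have w2 := row A2 (fun x hx => .inl (.inr hx)) p2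
  have w3 := row A3 subset_union_right p3
  have v1 := col t1 e31
  have v2 := col t2 e32
  have : p ∈ derivedSet (A2 ∩ h ⁻¹' (g '' t1)) ∧ p ∈ derivedSet (A3 ∩ h ⁻¹' (g '' t2)) ∨
      p ∈ derivedSet (A2 ∩ h ⁻¹' (g '' t2)) ∧ p ∈ derivedSet (A3 ∩ h ⁻¹' (g '' t1)) := by tauto
  rcases this with k | k
  · obtain ⟨u, y, ⟨q1, q2, q3, q4, q5, q6, q7⟩, q8⟩ :=
      fin t1 t2 h1.cl h2.cl subset_union_left subset_rfl k.1 k.2
    exact ⟨h, u, y, q1, q2, q3, q4, q5, q6, q7, .inl q8⟩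
  · obtain ⟨u, y, ⟨q1, q2, q3, q4, q5, q6, q7⟩, q8⟩ :=
      fin t2 t1 h2.cl h1.cl subset_union_right (inter_comm t2 t1).le k.1 k.2
    exact ⟨h, u, y, q1, q2, q3, q4, q5, q6, q7, .inr q8⟩

end Pool.Agent.Lib.MP_52f683_gt
end

-- part Pool.Agent.Lib.MP_52f683_gt.F.CT
section

set_option autoImplicit false
set_option linter.unusedSectionVars false

open Set Topology Filter

namespace Pool.Agent.Lib.MP_52f683_gt

variable {S : Type*} [TopologicalSpace S] [T1Space S] [Infinite S]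

/-- counting isolated points of remainders -/
lemma CB.cnt (hS : CB S) {n b a U : Set S} {e : S} (hW : World n b) (ha : IsClosed a)
    (ha' : Crd a) (hU : IsClosed U) (hU' : Crd U) (hea : e ∈ a) (heU : e ∈ U) (hen : e ∉ n)
    (h1 : U ∩ n ⊆ b) (h2 : U ∩ a ⊆ b ∪ {e}) (g : S ≃ₜ S) (hg : g '' b = b)
    (h3 : g '' U ∩ n ⊆ b) (h4 : g '' U ∩ a ⊆ b) : False := by
  have heb : e ∉ b := fun h => hen (hW.sub h)
  have hgb : g e ∉ b := fun h => heb ((mem_img g).1 (hg.symm ▸ h))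
  have han := ha.union hW.cln
  have k1 : ∀ x, x ∈ a ∪ n → x ∈ U → x ∈ b ∪ {e} := fun x hx hx' =>
    hx.elim (fun h => h2 ⟨hx', h⟩) fun h => Or.inl (h1 ⟨hx', h⟩)
  have k2 : ∀ x, x ∈ a ∪ n → x ∈ g '' U → x ∈ b := fun x hx hx' =>
    hx.elim (fun h => h4 ⟨hx', h⟩) fun h => h3 ⟨hx', h⟩
  have s1 : Sp ((a ∪ n) \ (b ∪ {e})) (U \ (b ∪ {e})) :=
    sp_of_closed han hU sdiff_subset sdiff_subset
      (disjoint_left.2 fun x hx hx' => hx.2 (k1 x hx.1 hx'))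
      (disjoint_left.2 fun x hx hx' => hx.2 (k1 x hx' hx.1))
  have s2 : Sp ((a ∪ n) \ (b ∪ {e})) (g '' (U \ (b ∪ {e}))) := by
    refine sp_of_closed han (g.isClosed_image.2 hU) sdiff_subset (image_mono sdiff_subset)
      (disjoint_left.2 fun x hx hx' => hx.2 (Or.inl (k2 x hx.1 hx'))) (disjoint_left.2 ?_)
    rintro _ ⟨y, hy, rfl⟩ hx
    exact hy.2 (Or.inl ((mem_img g).1 (hg.symm ▸ k2 _ hx ⟨y, hy.1, rfl⟩)))
  obtain ⟨h, hh⟩ := hS.thin.glueE (Eqv.rfl' _) ⟨g, rfl⟩ s1 s2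
  have e1 := congrArg (fun A => Iso (Rem A)) hh
  simp only [← img_rem, ← img_iso, rem_union s1, rem_union s2] at e1
  have r1 : b ⊆ Rem ((a ∪ n) \ (b ∪ {e})) := fun x hx =>
    ⟨closure_mono (fun y hy => (Set.mem_sdiff y).2
      ⟨Or.inr hy.1, fun k => k.elim hy.2 fun k => hen (k ▸ hy.1)⟩) (hW.nwd (hW.sub hx)), fun k => k.2 (Or.inl hx)⟩
  have r2 : Iso (Rem ((a ∪ n) \ (b ∪ {e})) ∪ Rem (U \ (b ∪ {e}))) ⊆ {e} := fun x hx =>
    (union_subset (ct1_rem han) (ct1_rem hU) hx.1).resolve_left fun k =>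
      hx.2 (der_mono (r1.trans subset_union_left) (hW.crb k))
  have r3 : derivedSet (Rem ((a ∪ n) \ (b ∪ {e})) ∪ g '' Rem (U \ (b ∪ {e}))) ⊆ b := by
    refine (der_sub_of_fin (B := b) ((toFinite {e, g e}).subset ?_)).trans
      (der_sub_closed hW.clb subset_rfl)
    rintro x ⟨hx | ⟨y, hy, rfl⟩, hx'⟩
    · exact Or.inl ((ct1_rem han hx).resolve_left hx')
    · exact Or.inr (congrArg g ((ct1_rem hU hy).resolve_left fun k => hx' (hg ▸ ⟨y, k, rfl⟩)))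
  have r4 : ∀ x ∈ Rem ((a ∪ n) \ (b ∪ {e})) ∪ g '' Rem (U \ (b ∪ {e})), x ∉ b → x = h e := by
    intro x hx hx'
    obtain ⟨y, hy, rfl⟩ := e1.ge ⟨hx, fun k => hx' (r3 k)⟩
    exact congrArg h (r2 hy)
  have r5 := (r4 _ (Or.inr ⟨e, ct1_pt hU' hW.clb heU heb subset_rfl, rfl⟩) hgb).trans
    (r4 _ (Or.inl (ct1_pt ha' hW.clb hea heb subset_union_left)) heb).symm
  exact hgb (h4 ⟨⟨e, heU, rfl⟩, r5.symm ▸ hea⟩)

/-- cutting along the intersection -/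
lemma CB.mob0 (hS : CB S) {t1 t2 Y : Set S} (h1 : IsClosed t1) (h2 : IsClosed t2)
    (n1 : Nwd t2 t1) (n2 : Nwd t1 t2) (g : S ≃ₜ S) (hY : Mem Y) (d1 : Disjoint t1 (g '' t2))
    (d2 : Disjoint Y (t1 ∪ g '' t2)) : ∃ Y', Mem Y' ∧ Disjoint Y' (t1 ∪ t2) := by
  have c1 : closure (t1 \ t2) = t1 := (closure_minimal sdiff_subset h1).antisymm n1
  have c2 : closure (t2 \ t1) = t2 := (closure_minimal sdiff_subset h2).antisymm n2
  obtain ⟨h, hh⟩ := hS.thin.glueE (Eqv.rfl' (t1 \ t2)) (B := t2 \ t1) ⟨g, rfl⟩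
    (sp_of_closed h1 h2 sdiff_subset sdiff_subset disjoint_sdiff_left disjoint_sdiff_left)
    (sp_of_closed h1 (g.isClosed_image.2 h2) sdiff_subset (image_mono sdiff_subset)
      (d1.mono_left sdiff_subset) (d1.symm.mono_left (image_mono sdiff_subset)))
  have e := congrArg closure hh
  rw [← img_cl, closure_union, closure_union, ← img_cl, c1, c2] at e
  refine ⟨h.symm '' Y, hY.image _, (img_disj h).1 ?_⟩
  rwa [img_img_symm, e]

/-- the triple lemma -/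
lemma CB.te (hS : CB S) {n b U t1 t2 : Set S} {e : S} (hW : World n b) (hU : Mem U)
    (h1 : Mem t1) (h2 : Mem t2) (fU : U ∩ n ⊆ b) (f1 : t1 ∩ n ⊆ b) (f2 : t2 ∩ n ⊆ b)
    (heU : e ∈ U) (he1 : e ∈ t1) (he2 : e ∈ t2) (hen : e ∉ n) (h3 : U ∩ t1 ∩ t2 ⊆ b ∪ {e})
    (i1 : e ∉ derivedSet (U ∩ t1)) (i2 : e ∉ derivedSet (U ∩ t2))
    (g : S ≃ₜ S) (hg : g '' b = b) (g1 : g '' (t1 ∪ t2) ∩ (n ∪ U) ⊆ b) :
    ∃ (h : S ≃ₜ S) (u y : Set S), Mem u ∧ Mem y ∧ u ⊆ U ∧ y ⊆ t1 ∪ t2 ∧ g e ∈ h '' u ∧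
      g e ∈ h '' y ∧ h '' u ∩ h '' y ⊆ b ∪ {g e} ∧
      ((h '' u ⊆ g '' t1 ∧ h '' y ⊆ g '' t2) ∨ (h '' u ⊆ g '' t2 ∧ h '' y ⊆ g '' t1)) := by
  have hY := hS.mem_union h1 h2
  have fY : (t1 ∪ t2) ∩ n ⊆ b := fun x hx => hx.1.elim (fun k => f1 ⟨k, hx.2⟩) fun k => f2 ⟨k, hx.2⟩
  have iY : e ∉ derivedSet (U ∩ (t1 ∪ t2)) := by
    rw [inter_union_distrib_left, derivedSet_union]
    exact fun k => k.elim i1 i2
  have sU : closure (U \ (t1 ∪ t2)) ⊆ U := hU.cl.closure_subset_iff.2 sdiff_subset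
  have sY : closure ((t1 ∪ t2) \ U) ⊆ t1 ∪ t2 := hY.cl.closure_subset_iff.2 sdiff_subset
  have eU : e ∈ closure (U \ (t1 ∪ t2)) :=
    der_sub_cl (der_mono (fun x hx => by exact ⟨hx.1, fun k => hx.2 ⟨hx.1, k⟩⟩)
      (der_diff (hU.crd heU) iY))
  have r2 := ct_rem (Q := closure ((t1 ∪ t2) \ U)) isClosed_closure sU fU
  have r3 := ct_rem (Q := closure (U \ (t1 ∪ t2))) isClosed_closure sY fY
  have d2 := fun p => ct_der (U := U) (p := p) hY.cl hW.cln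
  have d3 := fun p => ct_der (U := t1 ∪ t2) (p := p) hU.cl hW.cln
  have e3 : ∀ t, Mem t → e ∈ t → t ⊆ t1 ∪ t2 → e ∉ derivedSet (U ∩ t) → e ∈ derivedSet
      (((closure ((t1 ∪ t2) \ U) \ closure (U \ (t1 ∪ t2))) \ n) ∩ t) := fun t ht he hs hi =>
    der_mono (fun x hx => by
      exact ⟨⟨⟨subset_closure ⟨hs hx.1.1, fun k => hx.1.2 ⟨k, hx.1.1⟩⟩, fun k =>
        hx.1.2 ⟨sU k, hx.1.1⟩⟩, hx.2⟩, hx.1.1⟩)
      (der_diff_closed hW.cln hen (der_diff (ht.crd he) hi))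
  have e31 := e3 t1 h1 he1 subset_union_left i1
  have e32 := e3 t2 h2 he2 subset_union_right i2
  have s23 : Sp ((closure (U \ (t1 ∪ t2)) \ closure ((t1 ∪ t2) \ U)) \ n)
      ((closure ((t1 ∪ t2) \ U) \ closure (U \ (t1 ∪ t2))) \ n) :=
    sp_of_closed isClosed_closure isClosed_closure (fun _ h => h.1.1) (fun _ h => h.1.1)
      (disjoint_left.2 fun _ h => h.1.2) (disjoint_left.2 fun _ h => h.1.2)
  have a2 : ∀ x ∈ (closure (U \ (t1 ∪ t2)) \ closure ((t1 ∪ t2) \ U)) \ n, x ∈ U ∧ x ∉ n :=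
    fun x h => ⟨sU h.1.1, h.2⟩
  have a3 : ∀ x ∈ (closure ((t1 ∪ t2) \ U) \ closure (U \ (t1 ∪ t2))) \ n,
      x ∈ t1 ∪ t2 ∧ x ∉ n := fun x h => ⟨sY h.1.1, h.2⟩
  have eA : e ∉ (closure ((t1 ∪ t2) \ U) \ closure (U \ (t1 ∪ t2))) \ n := fun h => h.1.2 eU
  generalize (closure (U \ (t1 ∪ t2)) \ closure ((t1 ∪ t2) \ U)) \ n = A2 at *
  generalize (closure ((t1 ∪ t2) \ U) \ closure (U \ (t1 ∪ t2))) \ n = A3 at *
  have gb : ∀ x, g x ∈ b ↔ x ∈ b := fun x => by rw [← mem_img g (A := b) (x := x), hg]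
  have cg : ∀ (k : S ≃ₜ S) (t : Set S), IsClosed t → IsClosed (k '' t) := fun k t =>
    k.isClosed_image.2
  have off : ∀ x ∈ t1 ∪ t2, x ∉ n → g x ∉ n ∪ U := fun x hx hn k =>
    hn (hW.sub ((gb x).1 (g1 ⟨mem_image_of_mem _ hx, k⟩)))
  have s12 : Sp (n \ b) A2 := sp_of_closed hW.cln hU.cl sdiff_subset (fun x h => (a2 x h).1)
    (disjoint_left.2 fun x h k => h.2 (fU ⟨k, h.1⟩)) (disjoint_left.2 fun x h => (a2 x h).2)
  have s13 : Sp (n \ b) A3 := sp_of_closed hW.cln hY.cl sdiff_subset (fun x h => (a3 x h).1)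
    (disjoint_left.2 fun x h k => h.2 (fY ⟨k, h.1⟩)) (disjoint_left.2 fun x h => (a3 x h).2)
  have cnU := hW.cln.union hU.cl
  have sub : n \ b ∪ A2 ⊆ n ∪ U := union_subset_union sdiff_subset fun x h => (a2 x h).1
  have s' : Sp (n \ b ∪ A2) (g '' A3) :=
    sp_of_closed cnU (cg g _ hY.cl) sub (image_mono fun x h => (a3 x h).1)
      (disjoint_left.2 fun x h k => h.elim (fun l => l.2 (g1 ⟨k, .inl l.1⟩)) fun l =>
        (a2 x l).2 (hW.sub (g1 ⟨k, .inr (a2 x l).1⟩)))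
      (disjoint_left.2 fun _ ⟨x, h, k⟩ => k ▸ off x (a3 x h).1 (a3 x h).2)
  obtain ⟨h, hh⟩ := hS.thin.glueE (Eqv.rfl' _) ⟨g, rfl⟩ (s13.union_left s23) s'
  have r1 : Rem (n \ b) = b := by
    rw [Rem, hW.clP, sdiff_sdiff_cancel_left hW.sub]
  have R : Rem (n \ b ∪ A2 ∪ A3) = b ∪ Rem A2 ∪ Rem A3 := by
    rw [rem_union (s13.union_left s23), rem_union s12, r1]
  have R' : h '' (b ∪ Rem A2 ∪ Rem A3) = b ∪ Rem A2 ∪ g '' Rem A3 := by
    rw [← R, img_rem, hh, rem_union s', rem_union s12, r1, img_rem]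
  have c2 : closure A2 ⊆ U := hU.cl.closure_subset_iff.2 fun x h => (a2 x h).1
  have ge := off e (.inl he1) hen
  obtain ⟨p, hp⟩ := h.surjective (g e)
  have pI : p ∈ Iso (b ∪ Rem A2 ∪ Rem A3) := by
    rw [← mem_img h, img_iso, R', hp]
    refine ⟨.inr (mem_image_of_mem _ ⟨der_sub_cl (der_mono inter_subset_left e31), eA⟩), ?_⟩
    rw [derivedSet_union, ← img_der, Set.mem_union, mem_img]
    refine fun k => k.elim (fun k => ge (der_sub_closed cnU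
      (union_subset_union hW.sub fun x hx => c2 hx.1) k)) fun k => ?_
    have := der_mono r3 k
    rw [derivedSet_union] at this
    exact this.elim (fun l => hen (der_sub_closed hW.cln hW.sub l)) fun l =>
      iY (der_mono (fun x hx => by exact ⟨sU hx.2, sY hx.1⟩) l)
  have pb : p ∉ b := fun k => pI.2 (der_mono (fun x hx => .inl (.inl hx)) (hW.crb k))
  have pUY : p ∈ closure (U \ (t1 ∪ t2)) ∧ p ∈ closure ((t1 ∪ t2) \ U) := by
    rcases pI.1 with (k | k) | k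
    · exact absurd k pb
    · exact (r2 k).resolve_left pb
    · exact ((r3 k).resolve_left pb).symm
  have pn : p ∉ n := fun k => pb (fU ⟨sU pUY.1, k⟩)
  have p2 := d2 p pn ((mem_cl_iff.1 pUY.1).resolve_left fun k => k.2 (sY pUY.2))
  have p3 := d3 p pn ((mem_cl_iff.1 pUY.2).resolve_left fun k => k.2 (sU pUY.1))
  have row : ∀ A, A ⊆ n \ b ∪ A2 ∪ A3 → p ∈ derivedSet A →
      p ∈ derivedSet (A ∩ h ⁻¹' (g '' t1)) ∨ p ∈ derivedSet (A ∩ h ⁻¹' (g '' t2)) := by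
    intro A hA k
    rw [← Set.mem_union, ← derivedSet_union]
    refine der_mono (fun x hx => ?_)
      (der_diff_closed (cnU.preimage h.continuous) (fun l => ge (hp ▸ l)) k)
    have l := mem_image_of_mem h (hA hx.1)
    rw [hh] at l
    obtain ⟨z, z1, z2⟩ := l.resolve_left fun l => hx.2 (sub l)
    exact (a3 z z1).1.imp (fun l => ⟨hx.1, z, l, z2⟩) fun l => ⟨hx.1, z, l, z2⟩
  have col : ∀ t, e ∈ derivedSet (A3 ∩ t) →
      p ∈ derivedSet (A2 ∩ h ⁻¹' (g '' t)) ∨ p ∈ derivedSet (A3 ∩ h ⁻¹' (g '' t)) := by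
    intro t k
    have l : p ∈ derivedSet (h.symm '' (g '' (A3 ∩ t))) := by
      rw [← img_der, ← img_der]
      exact ⟨g e, mem_image_of_mem _ k, h.symm_apply_eq.2 hp.symm⟩
    rw [← Set.mem_union, ← derivedSet_union]
    refine der_mono ?_ (der_diff_closed hW.cln pn l)
    rintro _ ⟨⟨_, ⟨z, z1, rfl⟩, rfl⟩, z2⟩
    have l1 : h (h.symm (g z)) ∈ g '' t := ⟨z, z1.2, (h.apply_symm_apply _).symm⟩
    have l2 : h.symm (g z) ∈ n \ b ∪ A2 ∪ A3 := by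
      rw [← mem_img h, hh, h.apply_symm_apply]
      exact .inr (mem_image_of_mem _ z1.1)
    rcases l2 with (l2 | l2) | l2
    · exact absurd l2.1 z2
    · exact .inl ⟨l2, l1⟩
    · exact .inr ⟨l2, l1⟩
  have fin : ∀ s t : Set S, IsClosed s → IsClosed t → s ⊆ t1 ∪ t2 → s ∩ t ⊆ t1 ∩ t2 →
      p ∈ derivedSet (A2 ∩ h ⁻¹' (g '' s)) → p ∈ derivedSet (A3 ∩ h ⁻¹' (g '' t)) →
      ∃ u y : Set S, (Mem u ∧ Mem y ∧ u ⊆ U ∧ y ⊆ t1 ∪ t2 ∧ g e ∈ h '' u ∧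
        g e ∈ h '' y ∧ h '' u ∩ h '' y ⊆ b ∪ {g e}) ∧ h '' u ⊆ g '' s ∧ h '' y ⊆ g '' t := by
    intro s t hs ht k0 k1 k2 k3
    have u1 : A2 ∩ h ⁻¹' (g '' s) ⊆ U := fun x hx => (a2 x hx.1).1
    have y1 : A3 ∩ h ⁻¹' (g '' t) ⊆ t1 ∪ t2 := fun x hx => (a3 x hx.1).1
    have u2 := der_sub_closed ((cg g s hs).preimage h.continuous) (inter_subset_right (s := A2))
    have y2 := der_sub_closed ((cg g t ht).preimage h.continuous) (inter_subset_right (s := A3))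
    refine ⟨_, _, ⟨hS.mem_der hU.cl hU.sm u1 ⟨p, k2⟩, hS.mem_der hY.cl hY.sm y1 ⟨p, k3⟩,
      der_sub_closed hU.cl u1, der_sub_closed hY.cl y1, ⟨p, k2, hp⟩, ⟨p, k3, hp⟩, ?_⟩,
      image_subset_iff.2 u2, image_subset_iff.2 y2⟩
    rw [← img_inter]
    rintro _ ⟨x, ⟨x2, x3⟩, rfl⟩
    have l : x ∈ b ∪ Rem A2 ∪ Rem A3 := .inl (.inr ⟨der_sub_cl (der_mono inter_subset_left x2),
      fun k => disjoint_left.1 s23.1 k (der_sub_cl (der_mono inter_subset_left x3))⟩)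
    rw [← mem_img h, R'] at l
    rcases l with (l | l) | ⟨z, z1, z2⟩
    · exact .inl l
    · exact .inl (g1 ⟨image_mono k0 (u2 x2), .inr (c2 l.1)⟩)
    · have z3 := k1 (a := z) ⟨(mem_img g).1 (by rw [z2]; exact u2 x2),
        (mem_img g).1 (by rw [z2]; exact y2 x3)⟩
      rw [← z2]
      rcases (r3 z1).elim .inl fun l => h3 ⟨⟨sU l.2, z3.1⟩, z3.2⟩ with l | l
      · exact .inl ((gb z).2 l)
      · exact .inr (congrArg g l)
  have w2 := row A2 (fun x hx => .inl (.inr hx)) p2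
  have w3 := row A3 subset_union_right p3
  have v1 := col t1 e31
  have v2 := col t2 e32
  have : p ∈ derivedSet (A2 ∩ h ⁻¹' (g '' t1)) ∧ p ∈ derivedSet (A3 ∩ h ⁻¹' (g '' t2)) ∨
      p ∈ derivedSet (A2 ∩ h ⁻¹' (g '' t2)) ∧ p ∈ derivedSet (A3 ∩ h ⁻¹' (g '' t1)) := by tauto
  rcases this with k | k
  · obtain ⟨u, y, ⟨q1, q2, q3, q4, q5, q6, q7⟩, q8⟩ :=
      fin t1 t2 h1.cl h2.cl subset_union_left subset_rfl k.1 k.2
    exact ⟨h, u, y, q1, q2, q3, q4, q5, q6, q7, .inl q8⟩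
  · obtain ⟨u, y, ⟨q1, q2, q3, q4, q5, q6, q7⟩, q8⟩ :=
      fin t2 t1 h2.cl h1.cl subset_union_right (inter_comm t2 t1).le k.1 k.2
    exact ⟨h, u, y, q1, q2, q3, q4, q5, q6, q7, .inr q8⟩

end Pool.Agent.Lib.MP_52f683_gt
end

-- part Pool.Agent.Lib.MP_52f683_gt.CS.W0
section

set_option autoImplicit false
set_option linter.unusedSectionVars false

open Set Topology Filter

namespace Pool.Agent.Lib.MP_52f683_gt

variable {S : Type*} [TopologicalSpace S] [T1Space S] [Infinite S]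

/-- free members of a world -/
def Fr (n b t : Set S) : Prop := Mem t ∧ t ∩ n ⊆ b

/-- shrinking a member at a point, off a discrete set -/
lemma w0_shrink (hR : HasR S) {K D : Set S} {x : S} (hK : Mem K) (hD : Disc D) (hx : x ∈ K)
    (hxD : x ∉ D) : ∃ t, Mem t ∧ t ⊆ K ∧ x ∈ t ∧ Disjoint t D := by
  obtain ⟨W, hW, hxW, h⟩ := hR K D x hK hD hxD
  exact ⟨closure (K ∩ W), mem_of_crd (hK.crd.inter_open hW) ⟨x, hx, hxW⟩ hK.cl hK.sm
    inter_subset_left, closure_minimal inter_subset_left hK.cl, subset_closure ⟨hx, hxW⟩, h⟩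

lemma w0_free_img {n b U : Set S} (g : S ≃ₜ S) (hn : g '' n = n) (hb : g '' b = b)
    (h : U ∩ n ⊆ b) : g '' U ∩ n ⊆ b := by
  have := image_mono (f := g) h
  rwa [img_inter, hn, hb] at this

lemma w0_disc {A n : Set S} (h : derivedSet A ⊆ n) : Disc (A \ n) :=
  (disc_iso A).mono fun _ hx => ⟨hx.1, fun h' => hx.2 (h h')⟩

/-- a free member through `e` and a translate that misses `e` -/
lemma w0_other (hS : Ctx S) (hR : HasR S) {n b U : Set S} {e : S} (hW : World n b)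
    (hU : Fr n b U) (he : e ∈ U) (hen : e ∉ n) : ∃ (g : S ≃ₜ S) (U' : Set S), g '' n = n ∧
      g '' b = b ∧ Fr n b U' ∧ e ∈ U' ∧ e ∉ g '' U' := by
  obtain ⟨e2, he2⟩ := hS.exists_off (hS.union_ne hW.cln isClosed_singleton hW.sm
    (hS.disc_ne (disc_single e)))
  obtain ⟨g, g1, g2, g3⟩ := hS.world_move hW hen fun h => he2 (Or.inl h)
  have hne : e ∉ ({g.symm e} : Set S) := fun h => by
    have h' : g e = e := by
      conv_lhs => rw [mem_singleton_iff.1 h]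
      exact g.apply_symm_apply e
    exact he2 (Or.inr (g3.symm.trans h'))
  obtain ⟨U', m, s, e', d⟩ := w0_shrink hR hU.1 (disc_single _) he hne
  refine ⟨g, U', g1, g2, ⟨m, (inter_subset_inter_left n s).trans hU.2⟩, e', ?_⟩
  rintro ⟨y, hy, e''⟩
  exact disjoint_left.1 d hy (by rw [mem_singleton_iff, ← e'', g.symm_apply_apply])

section
variable (hS : Ctx S) (hR : HasR S)
include hS hR

lemma Ctx.first_world : ∃ n b U : Set S, World n b ∧ (n \ b).Nonempty ∧ Fr n b U ∧ ¬ U ⊆ n := by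
  obtain ⟨K, hK⟩ := hS.exists_mem
  obtain ⟨U, V, hU, hV, ⟨x, hx⟩, ⟨y, hy⟩, hd⟩ := hS.reducible hK
  have hc : Mem (closure (K ∩ U)) :=
    mem_of_crd (hK.crd.inter_open hU) ⟨x, hx⟩ hK.cl hK.sm inter_subset_left
  generalize hc1 : closure (K ∩ U) = c at hc
  have hyc : y ∉ c := fun h => by
    rw [← hc1] at h
    obtain ⟨z, h1, h2⟩ := mem_closure_iff.1 h V hV hy.2
    exact disjoint_left.1 hd h2 h1
  have hxc : x ∈ c := hc1 ▸ subset_closure hx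
  have hn : Mem (closure (K \ c)) :=
    mem_of_crd (hK.crd.diff_closed hc.cl) ⟨y, hy.1, hyc⟩ hK.cl hK.sm sdiff_subset
  have hxn : x ∉ closure (K \ c) := fun h => by
    obtain ⟨z, h1, h2⟩ := mem_closure_iff.1 h U hU hx.2
    exact h2.2 (hc1 ▸ subset_closure ⟨h2.1, h1⟩)
  have hb : K \ c ⊆ closure (K \ c) \ derivedSet (c ∩ closure (K \ c)) := fun z hz =>
    ⟨subset_closure hz, fun h => hz.2 (der_sub_closed hc.cl inter_subset_left h)⟩
  obtain ⟨t, m, s, e, d⟩ := w0_shrink hR hc (disc_iso (c ∩ closure (K \ c))) hxc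
    fun h => hxn h.1.2
  refine ⟨closure (K \ c), derivedSet (c ∩ closure (K \ c)), t,
    ⟨hn.cl, hn.crd, hn.sm, isClosed_derivedSet _, hS.crd_der _,
      der_sub_closed hn.cl inter_subset_right, closure_mono hb⟩,
    ⟨y, hb ⟨hy.1, hyc⟩⟩, ⟨m, fun z hz => ?_⟩, fun h => hxn (h e)⟩
  by_contra h
  exact disjoint_left.1 d hz.1 ⟨⟨s hz.1, hz.2⟩, h⟩

/-- every member sticking out of `n` contains a free member sticking out of `n` -/
lemma Ctx.h1d {n b U d : Set S} (hW : World n b) (hU : Fr n b U) (hU' : ¬ U ⊆ n) (hd : Mem d)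
    (hd' : ¬ d ⊆ n) : ∃ t, Fr n b t ∧ t ⊆ d ∧ ¬ t ⊆ n := by
  by_contra hn
  have key : ∀ U', Fr n b U' → Disc ((U' ∩ d) \ n) := fun U' h => by
    refine w0_disc fun z hz => ?_
    by_contra hzn
    have hs : derivedSet (U' ∩ d) ⊆ U' ∩ d := der_sub_closed (h.1.cl.inter hd.cl) subset_rfl
    exact hn ⟨_, ⟨hS.mem_der hd.cl hd.sm inter_subset_right ⟨z, hz⟩,
      (inter_subset_inter_left n (hs.trans inter_subset_left)).trans h.2⟩,
      hs.trans inter_subset_right, fun h' => hzn (h' hz)⟩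
  obtain ⟨e, he, hen⟩ := not_subset.1 hd'
  obtain ⟨u, hu, hun⟩ := not_subset.1 hU'
  obtain ⟨k, k1, k2, k3⟩ := hS.world_move hW hun hen
  obtain ⟨g, U', g1, g2, f, e1, e2⟩ := w0_other hS hR hW
    ⟨hU.1.image k, w0_free_img k k1 k2 hU.2⟩ ⟨u, hu, k3⟩ hen
  have f' : Fr n b (g '' U') := ⟨f.1.image g, w0_free_img g g1 g2 f.2⟩
  obtain ⟨a, m, s, ea, da⟩ := w0_shrink hR hd
    (hS.disc_union ((key U' f).mono (sdiff_subset (t := {e}))) (key _ f')) he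
    (by rintro (h | h)
        · exact h.2 rfl
        · exact e2 h.1.1)
  refine hS.cnt hW m.cl m.crd f.1.cl f.1.crd ea e1 hen f.2 (fun y hy => ?_) g g2 f'.2
    fun y hy => ?_
  · by_cases h : y ∈ n
    · exact Or.inl (f.2 ⟨hy.1, h⟩)
    · by_contra h'
      exact disjoint_left.1 da hy.2 (Or.inl ⟨⟨⟨hy.1, s hy.2⟩, h⟩, fun h'' => h' (Or.inr h'')⟩)
  · by_cases h : y ∈ n
    · exact f'.2 ⟨hy.1, h⟩
    · exact absurd (Or.inr ⟨⟨hy.1, s hy.2⟩, h⟩) (disjoint_left.1 da hy.2)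

/-- moving a member that avoids `n` and `F` through a given point -/
lemma Ctx.mi_core {n b t0 F : Set S} {x : S} (hW : World n b) (ht : Mem t0) (ht' : ¬ t0 ⊆ b)
    (hF : IsClosed F) (hF' : F ≠ univ) (hFn : F ∩ n ⊆ b) (h0 : t0 ∩ (n ∪ derivedSet F) ⊆ b)
    (hx : x ∉ n) (hxF : x ∉ F) : ∃ (k : S ≃ₜ S) (t : Set S), k '' b = b ∧ k '' t0 ∩ n ⊆ b ∧
      Mem t ∧ t ⊆ k '' t0 ∧ x ∈ t ∧ t ∩ F ⊆ b := by
  have hX : Crd (derivedSet F \ n) := (hS.crd_der F).diff_closed hW.cln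
  have c1 : closure (derivedSet F \ n) ⊆ derivedSet F :=
    closure_minimal sdiff_subset (isClosed_derivedSet F)
  have c2 : closure (derivedSet F \ n) ⊆ F := c1.trans (der_sub_closed hF subset_rfl)
  have hW' : World (n ∪ closure (derivedSet F \ n)) b :=
    ⟨hW.cln.union isClosed_closure, hW.crn.union hX.closure,
      hS.union_ne hW.cln isClosed_closure hW.sm fun e => hF' (eq_univ_of_univ_subset (e ▸ c2)),
      hW.clb, hW.crb, hW.sub.trans subset_union_left, hW.nwd.union_right hW.sub⟩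
  have h1 : t0 ∩ (n ∪ closure (derivedSet F \ n)) ⊆ b :=
    (inter_subset_inter_right t0 (union_subset_union_right n c1)).trans h0
  obtain ⟨y, hy, hyb⟩ := not_subset.1 ht'
  obtain ⟨k, k1, k2, k3⟩ := hS.world_move hW' (x := y) (y := x) (fun h => hyb (h1 ⟨hy, h⟩))
    fun h => h.elim hx fun h' => hxF (c2 h')
  have h2 := w0_free_img k k1 k2 h1
  obtain ⟨t, m, s, e, d⟩ := w0_shrink hR (ht.image k) (disc_iso F) ⟨y, hy, k3⟩ fun h => hxF h.1
  refine ⟨k, t, k2, (inter_subset_inter_right _ subset_union_left).trans h2, m, s, e,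
    fun z hz => ?_⟩
  by_cases h : z ∈ n
  · exact hFn ⟨hz.2, h⟩
  · refine h2 ⟨s hz.1, Or.inr (subset_closure ⟨?_, h⟩)⟩
    by_contra h'
    exact disjoint_left.1 d hz.1 ⟨hz.2, h'⟩

/-- a free member through a point, missing a closed set with small trace -/
lemma Ctx.mi {n b U F : Set S} {x : S} (hW : World n b) (hne : (n \ b).Nonempty) (hU : Fr n b U)
    (hU' : ¬ U ⊆ n) (hF : IsClosed F) (hF' : F ≠ univ) (hFn : F ∩ n ⊆ b) (hx : x ∉ n)
    (hxF : x ∉ F) : ∃ t, Fr n b t ∧ x ∈ t ∧ t ∩ F ⊆ b := by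
  have hX : Crd (derivedSet F \ n) := (hS.crd_der F).diff_closed hW.cln
  have c2 : closure (derivedSet F \ n) ⊆ F :=
    closure_minimal (sdiff_subset.trans (der_sub_closed hF subset_rfl)) hF
  obtain ⟨y, hy, hyb⟩ := hne
  obtain ⟨z, hz⟩ := hS.exists_off (hS.union_ne hW.cln isClosed_closure hW.sm
    fun e => hF' (eq_univ_of_univ_subset (e ▸ c2)))
  obtain ⟨k, k1, k2⟩ := hS.move_pt hX (x := y) (y := z) (fun h => hyb (hFn ⟨c2 h, hy⟩))
    fun h => hz (Or.inr h)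
  have hn : Mem n := ⟨hW.cln, hW.crn, ⟨y, hy⟩, hW.sm⟩
  obtain ⟨t0, f, s, h0⟩ := hS.h1d hR hW hU hU' (hn.image k) fun h => hz (Or.inl (h ⟨y, hy, k2⟩))
  have d : Disjoint (k '' n) (derivedSet F \ n) := by
    rw [← k1]
    exact (img_disj k).2 disjoint_sdiff_right
  obtain ⟨k', t, -, a1, m, s', e, a2⟩ := hS.mi_core hR hW f.1 (fun h => h0 (h.trans hW.sub)) hF hF'
    hFn (fun w hw => by
      by_cases h : w ∈ n
      · exact f.2 ⟨hw.1, h⟩
      · exact absurd ⟨hw.2.resolve_left h, h⟩ (disjoint_left.1 d (s hw.1))) hx hxF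
  exact ⟨t, ⟨m, (inter_subset_inter_left n s').trans a1⟩, e, a2⟩

lemma Ctx.tiny {n b U : Set S} (hW : World n b) (hne : (n \ b).Nonempty) (hU : Fr n b U)
    (hU' : ¬ U ⊆ n) : ∃ (c : Set S) (γ : S ≃ₜ S), Fr n b c ∧ ¬ c ⊆ n ∧ Nwd n c ∧
      γ '' n = n ∧ γ '' b = b ∧ γ '' c ∩ c ⊆ b := by
  obtain ⟨e, he, hen⟩ := not_subset.1 hU'
  obtain ⟨g, U1, g1, g2, f, e1, e2⟩ := w0_other hS hR hW hU he hen
  have f' : Fr n b (g '' U1) := ⟨f.1.image g, w0_free_img g g1 g2 f.2⟩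
  obtain ⟨t, ft, et, ht⟩ := hS.mi hR hW hne hU hU' f'.1.cl f'.1.sm f'.2 hen e2
  by_cases h : derivedSet (t ∩ U1) ⊆ n
  · exfalso
    obtain ⟨a, m, s, ea, da⟩ := w0_shrink hR ft.1 ((w0_disc h).mono (sdiff_subset (t := {e}))) et
      fun h' => h'.2 rfl
    refine hS.cnt hW m.cl m.crd f.1.cl f.1.crd ea e1 hen f.2 (fun y hy => ?_) g g2 f'.2
      fun y hy => ht ⟨s hy.2, hy.1⟩
    by_cases k : y ∈ n
    · exact Or.inl (f.2 ⟨hy.1, k⟩)
    · by_contra h'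
      exact disjoint_left.1 da hy.2 ⟨⟨⟨s hy.2, hy.1⟩, k⟩, fun h'' => h' (Or.inr h'')⟩
  · obtain ⟨z, hz, hzn⟩ := not_subset.1 h
    have hcl := ft.1.cl.inter f.1.cl
    have hs : derivedSet (t ∩ U1) \ n ⊆ t ∩ U1 :=
      sdiff_subset.trans (der_sub_closed hcl subset_rfl)
    have hs' : closure (derivedSet (t ∩ U1) \ n) ⊆ t ∩ U1 := closure_minimal hs hcl
    refine ⟨closure (derivedSet (t ∩ U1) \ n), g,
      ⟨mem_of_crd ((hS.crd_der _).diff_closed hW.cln) ⟨z, hz, hzn⟩ ft.1.cl ft.1.sm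
        (hs.trans inter_subset_left), fun y hy => ft.2 ⟨(hs' hy.1).1, hy.2⟩⟩,
      fun h' => hzn (h' (subset_closure ⟨hz, hzn⟩)),
      closure_mono fun y hy => ⟨subset_closure hy, hy.2⟩, g1, g2, fun y hy => ?_⟩
    exact ht ⟨(hs' hy.2).1, image_mono (hs'.trans inter_subset_right) hy.1⟩

end

end Pool.Agent.Lib.MP_52f683_gt
end

-- part Pool.Agent.Lib.MP_52f683_gt.CS.W1
section

set_option autoImplicit false
set_option linter.unusedSectionVars false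

open Set Topology Filter

namespace Pool.Agent.Lib.MP_52f683_gt

variable {S : Type*} [TopologicalSpace S] [T1Space S] [Infinite S]

/-- tiny members -/
def Tiny (n b c t : Set S) : Prop :=
  Mem t ∧ ∃ k : S ≃ₜ S, k '' b = b ∧ k '' c ∩ n ⊆ b ∧ t ⊆ k '' c

/-- the data of a tiny class -/
structure TW (n b c : Set S) (γ : S ≃ₜ S) : Prop where
  w : World n b
  ne : (n \ b).Nonempty
  fr : Fr n b c
  out : ¬ c ⊆ n
  nwd : Nwd n c
  g1 : γ '' n = n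
  g2 : γ '' b = b
  g3 : γ '' c ∩ c ⊆ b

lemma w1_fr {n b t : Set S} (g : S ≃ₜ S) (g1 : g '' n = n) (g2 : g '' b = b) (h : t ∩ n ⊆ b) :
    g '' t ∩ n ⊆ b := by
  have : g '' (t ∩ n) ⊆ g '' b := image_mono h
  rwa [img_inter, g1, g2] at this

lemma w1_cl {n b c : Set S} (hW : World n b) (hc : IsClosed c) (h : Nwd b c) :
    closure ((n ∪ c) \ b) = n ∪ c := by
  rw [union_sdiff_distrib, closure_union, hW.clP]
  congr 1
  exact (closure_minimal sdiff_subset hc).antisymm h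

lemma w1_sp {n b c : Set S} (hW : World n b) (hc : IsClosed c) (h : c ∩ n ⊆ b) :
    Sp (n \ b) (c \ b) :=
  sp_of_closed hW.cln hc sdiff_subset sdiff_subset
    (disjoint_left.2 fun _ hx hx' => hx.2 (h ⟨hx', hx.1⟩))
    (disjoint_left.2 fun _ hx hx' => hx.2 (h ⟨hx.1, hx'⟩))

lemma w1_closed {A : Set S} {e : S} (hA : IsClosed A) (he : e ∉ derivedSet A) :
    IsClosed (A \ {e}) := by
  rw [isClosed_iff_derivedSet_subset]
  intro x hx
  have h1 : x ∈ derivedSet A := der_mono sdiff_subset hx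
  exact ⟨der_sub_closed hA subset_rfl h1, fun h => he (by rw [← mem_singleton_iff.1 h]; exact h1)⟩

lemma Tiny.fr {n b c t : Set S} (h : Tiny n b c t) : t ∩ n ⊆ b :=
  let ⟨_, _, _, h2, h3⟩ := h
  (inter_subset_inter_left _ h3).trans h2

lemma Tiny.sub {n b c t s : Set S} (h : Tiny n b c t) (hs : Mem s) (hst : s ⊆ t) :
    Tiny n b c s :=
  let ⟨_, k, h1, h2, h3⟩ := h
  ⟨hs, k, h1, h2, hst.trans h3⟩

lemma Tiny.image {n b c t : Set S} (h : Tiny n b c t) (g : S ≃ₜ S) (g1 : g '' n = n)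
    (g2 : g '' b = b) : Tiny n b c (g '' t) := by
  obtain ⟨h0, k, h1, h2, h3⟩ := h
  refine ⟨h0.image g, k.trans g, by rw [img_trans, h1, g2], ?_, ?_⟩
  · rw [img_trans]; exact w1_fr g g1 g2 h2
  · rw [img_trans]; exact image_mono h3

lemma Ctx.mob (hS : Ctx S) {n b c : Set S} {γ : S ≃ₜ S} (h : TW n b c γ) (k1 k2 : S ≃ₜ S)
    (a1 : k1 '' b = b) (a2 : k1 '' c ∩ n ⊆ b) (b1 : k2 '' b = b) :
    ∃ g : S ≃ₜ S, g '' b = b ∧ g '' (k2 '' c) ∩ (n ∪ k1 '' c) ⊆ b := by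
  have hc := h.fr.1.cl
  have hc' : IsClosed (k1 '' c) := k1.isClosed_image.2 hc
  have n1 : Nwd b c := h.nwd.mono h.w.sub
  have n2 : Nwd b (k1 '' c) := by simpa only [a1] using n1.image k1
  obtain ⟨f, hf⟩ := hS.thin.glueE (Eqv.rfl' (n \ b))
    (show Eqv (c \ b) (k1 '' c \ b) from ⟨k1, by rw [img_diff, a1]⟩)
    (w1_sp h.w hc h.fr.2) (w1_sp h.w hc' a2)
  rw [← union_sdiff_distrib, ← union_sdiff_distrib] at hf
  have e1 : f '' (n ∪ c) = n ∪ k1 '' c := by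
    rw [← w1_cl h.w hc n1, img_cl, hf, w1_cl h.w hc' n2]
  have e2 : f '' b = b := by
    have e : ∀ X : Set S, b = (n ∪ X) \ ((n ∪ X) \ b) := fun X => by
      rw [sdiff_sdiff_right_self, inter_eq_right.2 (h.w.sub.trans subset_union_left)]
    conv_lhs => rw [e c]
    rw [img_diff, hf, e1, ← e]
  refine ⟨k2.symm.trans (γ.trans f), ?_, ?_⟩
  · have : k2.symm '' b = b := by
      conv_lhs => rw [← b1]
      exact img_symm_img k2 b
    rw [img_trans, img_trans, this, h.g2, e2]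
  · rw [img_trans, img_trans, img_symm_img, ← e1, ← img_inter, ← e2]
    refine image_mono ?_
    rw [inter_union_distrib_left]
    exact union_subset (w1_fr γ h.g1 h.g2 h.fr.2) h.g3

lemma Ctx.w1_k0 (hS : Ctx S) {n b c u y : Set S} {γ : S ≃ₜ S} {p : S} (h : TW n b c γ)
    (hu : Tiny n b c u) (hy : Tiny n b c y) (pu : p ∈ u) (py : p ∈ y) (hp : p ∉ n)
    (hi : u ∩ y ⊆ b ∪ {p}) : False := by
  have f1 := hu.fr
  obtain ⟨hu, k2, b1, -, b3⟩ := hu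
  obtain ⟨hy, k1, a1, a2, a3⟩ := hy
  obtain ⟨g, g1, g2⟩ := hS.mob h k1 k2 a1 a2 b1
  exact hS.cnt h.w hy.cl hy.crd hu.cl hu.crd py pu hp f1 hi g g1
    ((inter_subset_inter (image_mono b3) subset_union_left).trans g2)
    ((inter_subset_inter (image_mono b3) (a3.trans subset_union_right)).trans g2)

section
variable (hS : Ctx S) (hR : HasR S)
include hS hR

/-- a tiny member through a point, missing a closed subset of a tiny member -/
lemma Ctx.tmi {n b c t F : Set S} {γ : S ≃ₜ S} {x : S} (h : TW n b c γ) (ht : Tiny n b c t)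
    (hF : IsClosed F) (hFt : F ⊆ t) (hx : x ∉ n) (hxF : x ∉ F) :
    ∃ t', Tiny n b c t' ∧ x ∈ t' ∧ t' ∩ F ⊆ b := by
  have f1 := ht.fr
  obtain ⟨ht, k, a1, a2, a3⟩ := ht
  obtain ⟨g, g1, g2⟩ := hS.mob h k (Homeomorph.refl S) a1 a2 (by simp)
  have g2' : g '' c ∩ (n ∪ k '' c) ⊆ b := by simpa using g2
  obtain ⟨k', t', c1, c2, c3, c4, c5, c6⟩ := hS.mi_core hR (t0 := g '' c) h.w (h.fr.1.image g)
    (fun e => h.out (((img_sub g).1 (by rwa [g1])).trans h.w.sub)) hF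
    (fun e => ht.sm (eq_univ_of_univ_subset (e ▸ hFt)))
    ((inter_subset_inter_left _ hFt).trans f1)
    ((inter_subset_inter_right _ (union_subset_union_right _
      ((der_sub_closed hF subset_rfl).trans (hFt.trans a3)))).trans g2') hx hxF
  refine ⟨t', ⟨c3, g.trans k', ?_, ?_, ?_⟩, c5, c6⟩
  · rw [img_trans, g1, c1]
  · rwa [img_trans]
  · rwa [img_trans]

lemma Ctx.lf_tiny {n b c t1 t2 : Set S} {γ : S ≃ₜ S} {e : S} (h : TW n b c γ)
    (h1 : Tiny n b c t1) (h2 : Tiny n b c t2) (e1 : e ∈ t1) (e2 : e ∈ t2) (he : e ∉ n) :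
    e ∈ derivedSet (t1 ∩ t2) := by
  by_contra hn
  have m12 := hS.mem_union h1.1 h2.1
  obtain ⟨z, hz⟩ := hS.exists_off (hS.union_ne h.w.cln m12.cl h.w.sm m12.sm)
  obtain ⟨g, g1, g2, g3⟩ := hS.world_move h.w (fun e => hz (Or.inl e)) he
  have f12 : (t1 ∪ t2) ∩ n ⊆ b := by
    rw [union_inter_distrib_right]; exact union_subset h1.fr h2.fr
  have heF : e ∉ (t1 ∩ t2) \ {e} ∪ g '' (t1 ∪ t2) := by
    rintro (h' | h')
    · exact h'.2 rfl
    · rw [← g3, mem_img] at h'; exact hz (Or.inr h')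
  obtain ⟨U, hU, eU, hUF⟩ := hS.mi hR (F := (t1 ∩ t2) \ {e} ∪ g '' (t1 ∪ t2)) h.w h.ne h.fr h.out
    ((w1_closed (h1.1.cl.inter h2.1.cl) hn).union (m12.image g).cl)
    (fun e' => heF (e' ▸ mem_univ _))
    (by
      rw [union_inter_distrib_right]
      exact union_subset (fun y hy => h1.fr ⟨hy.1.1.1, hy.2⟩) (w1_fr g g1 g2 f12)) he heF
  have h3 : U ∩ t1 ∩ t2 ⊆ b ∪ {e} := fun y hy => by
    by_cases hye : y = e
    · exact Or.inr hye
    · exact Or.inl (hUF ⟨hy.1.1, Or.inl ⟨⟨hy.1.2, hy.2⟩, hye⟩⟩)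
  by_cases i1 : e ∈ derivedSet (U ∩ t1)
  · have s1 := der_sub_closed (hU.1.cl.inter h1.1.cl) (subset_rfl (a := U ∩ t1))
    exact hS.w1_k0 h (h1.sub (hS.mem_der h1.1.cl h1.1.sm inter_subset_right ⟨e, i1⟩)
      (s1.trans inter_subset_right)) h2 i1 e2 he ((inter_subset_inter_left _ s1).trans h3)
  by_cases i2 : e ∈ derivedSet (U ∩ t2)
  · have s1 := der_sub_closed (hU.1.cl.inter h2.1.cl) (subset_rfl (a := U ∩ t2))
    exact hS.w1_k0 h (h2.sub (hS.mem_der h2.1.cl h2.1.sm inter_subset_right ⟨e, i2⟩)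
      (s1.trans inter_subset_right)) h1 i2 e1 he
      fun y hy => h3 ⟨⟨(s1 hy.1).1, hy.2⟩, (s1 hy.1).2⟩
  obtain ⟨f, u, y, hu, hy, -, -, p1, p2, p3, p4⟩ := hS.te h.w hU.1 h1.1 h2.1 hU.2 h1.fr h2.fr eU
    e1 e2 he h3 i1 i2 g g2 (by
      rw [inter_union_distrib_left]
      exact union_subset (w1_fr g g1 g2 f12) fun y hy => hUF ⟨hy.2, Or.inr hy.1⟩)
  have hge : g e ∉ n := fun h' => he (by rwa [← g1, mem_img] at h')
  rcases p4 with ⟨q1, q2⟩ | ⟨q1, q2⟩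
  · exact hS.w1_k0 h ((h1.image g g1 g2).sub (hu.image f) q1)
      ((h2.image g g1 g2).sub (hy.image f) q2) p1 p2 hge p3
  · exact hS.w1_k0 h ((h2.image g g1 g2).sub (hu.image f) q1)
      ((h1.image g g1 g2).sub (hy.image f) q2) p1 p2 hge p3

lemma Ctx.lf_mixed {n b c t a : Set S} {γ : S ≃ₜ S} {e : S} (h : TW n b c γ)
    (h1 : Tiny n b c t) (h2 : Mem a) (e1 : e ∈ t) (e2 : e ∈ a) (he : e ∉ n) :
    e ∈ derivedSet (a ∩ t) := by
  by_contra hn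
  obtain ⟨z, hz⟩ := hS.exists_off (hS.union_ne h.w.cln h2.cl h.w.sm h2.sm)
  obtain ⟨g, g1, g2, g3⟩ := hS.world_move h.w he (fun e => hz (Or.inl e))
  obtain ⟨t', ht', et', hF⟩ := hS.tmi hR (F := (a ∩ t) \ {e} ∪ (t ∩ g ⁻¹' a)) h h1
    ((w1_closed (h2.cl.inter h1.1.cl) hn).union (h1.1.cl.inter (h2.cl.preimage g.continuous)))
    (union_subset (fun y hy => hy.1.2) inter_subset_left) he (by
      rintro (h' | h')
      · exact h'.2 rfl
      · exact hz (Or.inr (g3 ▸ h'.2)))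
  have eU := hS.lf_tiny hR h h1 ht' e1 et' he
  have s1 := der_sub_closed (h1.1.cl.inter ht'.1.cl) (subset_rfl (a := t ∩ t'))
  have fU : derivedSet (t ∩ t') ∩ n ⊆ b := fun y hy => h1.fr ⟨(s1 hy.1).1, hy.2⟩
  refine hS.cnt h.w h2.cl h2.crd (isClosed_derivedSet _) (hS.crd_der _) e2 eU he fU
    (fun y hy => ?_) g g2 (w1_fr g g1 g2 fU) ?_
  · by_cases hye : y = e
    · exact Or.inr hye
    · exact Or.inl (hF ⟨(s1 hy.1).2, Or.inl ⟨⟨hy.2, (s1 hy.1).1⟩, hye⟩⟩)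
  · rintro _ ⟨⟨y, hy, rfl⟩, hy'⟩
    rw [← g2]
    exact mem_image_of_mem _ (hF ⟨(s1 hy).2, Or.inr ⟨(s1 hy).1, hy'⟩⟩)

theorem Ctx.lf_global : LFin (univ : Set S) := by
  obtain ⟨n, b, U, hW, hne, hU, hU'⟩ := hS.first_world hR
  obtain ⟨c, γ, c1, c2, c3, c4, c5, c6⟩ := hS.tiny hR hW hne hU hU'
  have h : TW n b c γ := ⟨hW, hne, c1, c2, c3, c4, c5, c6⟩
  have key : ∀ (a a' : Set S) (e : S), Mem a → Mem a' → e ∈ a → e ∈ a' → e ∉ n →
      e ∈ derivedSet (a ∩ a') := by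
    intro a a' e ha ha' e1 e2 he
    obtain ⟨y, hy, hyn⟩ := not_subset.1 c2
    obtain ⟨k, k1, k2, k3⟩ := hS.world_move hW hyn he
    have ht : Tiny n b c (k '' c) := ⟨c1.1.image k, k, k2, w1_fr k k1 k2 c1.2, subset_rfl⟩
    have i1 := hS.lf_mixed hR h ht ha ⟨y, hy, k3⟩ e1 he
    have s1 := der_sub_closed (ha.cl.inter ht.1.cl) (subset_rfl (a := a ∩ k '' c))
    have i2 := hS.lf_mixed hR h (ht.sub (hS.mem_der ha.cl ha.sm inter_subset_left ⟨e, i1⟩)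
      (s1.trans inter_subset_right)) ha' i1 e2 he
    exact der_mono (fun y hy => mem_inter (s1 hy.2).1 hy.1) i2
  intro a a' ha ha' _ _ e he
  obtain ⟨z, hz⟩ := hS.exists_off hW.sm
  obtain ⟨f, rfl⟩ := hS.thin.homog e z
  have := key _ _ (f e) (ha.image f) (ha'.image f) (mem_image_of_mem _ he.1)
    (mem_image_of_mem _ he.2) hz
  rwa [← img_inter, ← img_der, mem_img] at this

end

end Pool.Agent.Lib.MP_52f683_gt
end
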