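import Pool.Agent.Lib.MP_52f683_gt.CS.NB
import Pool.Agent.Lib.MP_52f683_gt.CS.W1
import Pool.Agent.Lib.MP_52f683_gt.CS.S2

set_option autoImplicit false
set_option linter.unusedSectionVars false

open Set Topology Filter

namespace Pool.Agent.Lib.MP_52f683_gt

variable {S : Type*} [TopologicalSpace S] [T1Space S] [Infinite S]

theorem Ctx.false (hS : Ctx S) : False := by
  by_cases h : ∃ K : Set S, Nodec K
  · obtain ⟨K, hK⟩ := h
    refine hS.nodec_linked (fun K L hK hL => ?_) hK
    by_contra hn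
    exact hS.nodec_dt hK hL.1 (disjoint_iff_inter_eq_empty.2 (not_nonempty_iff_eq_empty.1 hn))
  · have hN : NN S := fun K hK => by
      by_contra hn
      refine h ⟨K, hK, fun C h1 h2 h3 => ?_⟩
      by_contra h4
      have h5 := der_sub_closed h1 subset_rfl
      exact hn ⟨_, hS.mem_der hK.cl hK.sm h2 (hS.der_ne h4), h5.trans h2, h3.mono h5⟩
    exact hS.lf_kill (hS.lf_global (hS.hasR hN)) hN (hS.hasR hN)

theorem Thin.uncountable_disc_t1 (hS : Thin S) : ∃ D : Set S, Disc D ∧ ¬ D.Countable := by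
  by_contra hn
  exact Ctx.false (S := S) ⟨hS, fun D hD => by_contra fun h => hn ⟨D, hD, h⟩⟩

omit [T1Space S] in
theorem Thin.uncountable_discrete (hS : Thin S) :
    ∃ D : Set S, ¬ D.Countable ∧ DiscreteTopology D := by
  have := hS.infinite_quot
  have := hS.t1_quot
  obtain ⟨D, h1, h2⟩ := hS.thin_quot.uncountable_disc_t1
  let s : SeparationQuotient S → S := Function.surjInv SeparationQuotient.surjective_mk
  have hs : ∀ y, SeparationQuotient.mk (s y) = y := Function.surjInv_eq _
  refine ⟨s '' D, fun h => h2 ?_, discreteTopology_of_noAccPts ?_⟩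
  · simpa [image_image, hs] using h.image SeparationQuotient.mk
  · rintro _ ⟨y, hy, rfl⟩ h
    refine disjoint_left.1 h1 hy ?_
    rw [mem_derivedSet, accPt_iff_nhds] at *
    intro U hU
    obtain ⟨_, ⟨h3, z, hz, rfl⟩, h4⟩ := h _
      (SeparationQuotient.continuous_mk.continuousAt.preimage_mem_nhds (by rwa [hs]))
    exact ⟨z, ⟨by simpa [hs] using h3, hz⟩, fun e => h4 (by rw [e])⟩

end Pool.Agent.Lib.MP_52f683_gt
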