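import Pool.Agent.Lib.MP_52f683_gt.CS.L2
import Pool.Agent.Lib.MP_52f683_gt.CS.CT
import Pool.Agent.Lib.MP_52f683_gt.CS.EN

set_option autoImplicit false
set_option linter.unusedSectionVars false

open Set Topology Filter

namespace Pool.Agent.Lib.MP_52f683_gt

variable {S : Type*} [TopologicalSpace S] [T1Space S] [Infinite S]

/-- inside a set with a disjoint member, discrete intersections are empty -/
lemma Ctx.b1 (hS : Ctx S) {t1 t2 Y : Set S} (h1 : Mem t1) (h2 : Mem t2) (hY : Mem Y)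
    (hd : Disjoint Y (t1 ∪ t2)) (h : Disc (t1 ∩ t2)) : Disjoint t1 t2 := by
  refine disjoint_left.2 fun e he1 he2 => ?_
  obtain ⟨x0, hx0⟩ := hY.ne
  obtain ⟨k, hk, hk'⟩ := hS.sep (D := (t1 ∩ t2) \ {e}) x0 (x := e) hY.cl hY.sm
    (h.mono sdiff_subset) fun h => h.2 rfl
  have hU := hY.image k
  have heU : e ∈ k '' Y := ⟨x0, hx0, hk⟩
  have h3 : k '' Y ∩ t1 ∩ t2 ⊆ {e} := fun z hz => by
    by_contra hn
    exact disjoint_left.1 hk' hz.1.1 ⟨⟨hz.1.2, hz.2⟩, hn⟩
  have key : ∀ (a U : Set S) (p : S), IsClosed a → Crd a → IsClosed U → Crd U → p ∈ a → p ∈ U →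
      U ⊆ k '' Y → a ⊆ t1 ∪ t2 → U ∩ a ⊆ {p} → False := by
    intro a U p a1 a2 a3 a4 a5 a6 a7 a8 a9
    refine hS.cnt hS.world_empty a1 a2 a3 a4 a5 a6 id inter_subset_right
      (a9.trans subset_union_right) k.symm (image_empty _) inter_subset_right fun z hz => ?_
    have := image_mono (f := k.symm) a7 hz.1
    rw [img_symm_img] at this
    exact disjoint_left.1 hd this (a8 hz.2)
  by_cases i1 : e ∈ derivedSet (k '' Y ∩ t1)
  · have := der_sub_closed (hU.cl.inter h1.cl) subset_rfl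
    exact key t2 _ e h2.cl h2.crd (isClosed_derivedSet _) (hS.crd_der _) he2 i1
      (this.trans inter_subset_left) subset_union_right fun z hz => h3 ⟨this hz.1, hz.2⟩
  by_cases i2 : e ∈ derivedSet (k '' Y ∩ t2)
  · have := der_sub_closed (hU.cl.inter h2.cl) subset_rfl
    exact key t1 _ e h1.cl h1.crd (isClosed_derivedSet _) (hS.crd_der _) he1 i2
      (this.trans inter_subset_left) subset_union_left
      fun z hz => h3 ⟨⟨(this hz.1).1, hz.2⟩, (this hz.1).2⟩
  obtain ⟨g, u, y, b1, b2, b3, b4, ⟨p, b5, b6⟩, b7, b8, -⟩ := hS.te hS.world_empty hU h1 h2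
    inter_subset_right inter_subset_right inter_subset_right heU he1 he2 id
    (h3.trans subset_union_right) i1 i2 k (image_empty _) (by
      rw [empty_union, ← img_inter, hd.symm.inter_eq, image_empty])
  rw [← b6] at b7 b8
  refine key y u p b2.cl b2.crd b1.cl b1.crd ((mem_img g).1 b7) b5 b3 b4 fun z hz => ?_
  have := b8 ⟨mem_image_of_mem g hz.1, mem_image_of_mem g hz.2⟩
  rw [empty_union] at this
  exact g.injective this

lemma Ctx.nb_nwd (hS : Ctx S) {A B : Set S} (hA : Crd A) (h : Disc (A ∩ B)) : Nwd B A := by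
  have := hS.nwd_disc hA h
  rwa [Nwd, sdiff_self_inter] at this

lemma Ctx.nb_mob (hS : Ctx S) {t1 t2 Y : Set S} (h1 : Mem t1) (h2 : Mem t2) (h : Disc (t1 ∩ t2))
    (g : S ≃ₜ S) (hY : Mem Y) (d1 : Disjoint t1 (g '' t2)) (d2 : Disjoint Y (t1 ∪ g '' t2)) :
    Disjoint t1 t2 := by
  obtain ⟨Y', a1, a2⟩ := hS.mob0 h1.cl h2.cl (hS.nb_nwd h1.crd h)
    (hS.nb_nwd h2.crd (inter_comm t1 t2 ▸ h)) g hY d1 d2
  exact hS.b1 h1 h2 a1 a2 h

/-- a nodec member with two disjoint translates and a third disjoint member -/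
lemma Ctx.b2 (hS : Ctx S) {Y1 Y2 : Set S} (h1 : Nodec Y1) (h2 : Mem Y2) (hd : Disjoint Y1 Y2) :
    ∃ (X : Set S) (γ : S ≃ₜ S), Mem X ∧ X ⊆ Y1 ∧ γ '' X ⊆ Y1 ∧ Disjoint X (γ '' X) := by
  obtain ⟨a, b, hs⟩ := hS.dsplit h1
  have hab : Disjoint a b := hS.b1 hs.ma hs.mb h2 (hs.eq ▸ hd.symm) hs.disc
  have ha : a ⊆ Y1 := hs.eq ▸ subset_union_left
  have hb : b ⊆ Y1 := hs.eq ▸ subset_union_right
  obtain ⟨x, hx⟩ := hs.ma.ne
  obtain ⟨y, hy⟩ := hs.mb.ne
  obtain ⟨k, hk⟩ := hS.thin.homog x y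
  have hka := hs.ma.image k
  by_cases hD : Disc (b ∩ k '' a)
  · refine absurd ⟨x, hx, hk⟩ (disjoint_left.1 (hS.nb_mob hs.mb hka hD k.symm h2 ?_ ?_) hy)
    · rw [img_symm_img]; exact hab.symm
    · rw [img_symm_img]; exact hd.symm.mono_right (union_subset hb ha)
  · have hc := hS.mem_der hs.mb.cl hs.mb.sm inter_subset_left (hS.der_ne hD)
    have h3 := der_sub_closed (hs.mb.cl.inter hka.cl) subset_rfl
    have h4 : k.symm '' derivedSet (b ∩ k '' a) ⊆ a := by
      have := image_mono (f := k.symm) (h3.trans inter_subset_right)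
      rwa [img_symm_img] at this
    refine ⟨_, k, hc.image k.symm, h4.trans ha, ?_, ?_⟩
    · rw [img_img_symm]; exact (h3.trans inter_subset_left).trans hb
    · rw [img_img_symm]; exact hab.mono h4 (h3.trans inter_subset_left)

theorem Ctx.nodec_dt (hS : Ctx S) {Y1 Y2 : Set S} (h1 : Nodec Y1) (h2 : Mem Y2)
    (hd : Disjoint Y1 Y2) : False := by
  obtain ⟨X, γ, hX, x1, x2, x3⟩ := hS.b2 h1 h2 hd
  have perp : ∀ (k : S ≃ₜ S) (s s' : Set S), Mem s → Mem s' → s ⊆ X → s' ⊆ k '' X → Nwd s' s →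
      Disjoint s s' := by
    intro k s s' a1 a2 a3 a4 a5
    have a6 : (k.symm.trans γ) '' s' ⊆ γ '' X := by
      rw [img_trans]
      refine image_mono ?_
      have := image_mono (f := k.symm) a4
      rwa [img_symm_img] at this
    exact hS.nb_mob a1 a2 ((h1.sub a1 (a3.trans x1)).2 _ (a1.cl.inter a2.cl) inter_subset_left
      (a5.mono inter_subset_right)) (k.symm.trans γ) h2 (x3.mono a3 a6)
      (hd.symm.mono_right (union_subset (a3.trans x1) (a6.trans x2)))
  have perp0 : ∀ s s' : Set S, Mem s → Mem s' → s ⊆ X → s' ⊆ X → Nwd s' s → Disjoint s s' :=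
    fun s s' a1 a2 a3 a4 => perp (Homeomorph.refl S) s s' a1 a2 a3 (by simpa using a4)
  have dif : ∀ (k : S ≃ₜ S) (a b : Set S), Mem a → Mem b → a ⊆ X → b ⊆ k '' X →
      Disjoint (closure (a \ b)) (closure (b \ a)) := by
    intro k a b a1 a2 a3 a4
    refine disjoint_left.2 fun z z1 z2 => ?_
    have c1 : closure (a \ b) ⊆ a := closure_minimal sdiff_subset a1.cl
    have c2 : closure (b \ a) ⊆ b := closure_minimal sdiff_subset a2.cl
    exact disjoint_left.1 (perp k _ _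
      (mem_of_crd (a1.crd.diff_closed a2.cl) (closure_nonempty_iff.1 ⟨z, z1⟩) a1.cl a1.sm
        sdiff_subset)
      (mem_of_crd (a2.crd.diff_closed a1.cl) (closure_nonempty_iff.1 ⟨z, z2⟩) a2.cl a2.sm
        sdiff_subset) (c1.trans a3) (c2.trans a4)
      (closure_mono fun w hw => ⟨subset_closure hw, fun h => hw.2 (c2 h)⟩)) z1 z2
  have ed := ed_of_perp hX isClosed_empty (sdiff_empty (s := X)).symm
    fun s s' a1 a2 a3 a4 a5 _ => (perp0 s s' a1 a2 a3 a4 (a5.mono subset_union_left)).inter_eq.le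
  refine hS.the_end (X := X) (c := X) (m := ∅)
    ⟨hX, isClosed_empty, crd_empty, empty_ne_univ, sdiff_empty.symm, hX.ne⟩ ?_ ?_ ?_
  · rw [union_empty]
    intro a b a1 a2 a3 a4 e he
    by_contra hn
    have c1 := der_diff (a1.crd he.1) hn
    have c2 := der_diff (a2.crd he.2) hn
    rw [sdiff_self_inter] at c1
    rw [sdiff_inter_self_eq_sdiff] at c2
    exact disjoint_left.1 (dif (Homeomorph.refl S) a b a1 a2 a3 (by simpa using a4))
      (der_sub_cl c1) (der_sub_cl c2)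
  · intro x hx
    refine Subset.antisymm (fun y hy => ?_) (singleton_subset_iff.2 ⟨hx, fun _ _ h => h⟩)
    by_contra hn
    obtain ⟨k, hk, hk'⟩ := hS.sep x (x := x) hX.cl hX.sm (disc_single y) (Ne.symm hn)
    have hkX := hX.image k
    have hxk : x ∈ k '' X := ⟨x, hx, hk⟩
    have c1 : x ∉ closure (X \ k '' X) := by
      intro c2
      have c3 := disjoint_left.1 (dif k X _ hX hkX subset_rfl subset_rfl) c2
      have c4 : k '' X \ closure (k '' X \ X) ⊆ X := fun z hz => by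
        by_contra h
        exact hz.2 (subset_closure ⟨hz.1, h⟩)
      have c5 : closure (k '' X \ closure (k '' X \ X)) ⊆ k '' X :=
        closure_minimal sdiff_subset hkX.cl
      exact disjoint_left.1 (perp0 _ _
        (mem_of_crd (hX.crd.diff_closed hkX.cl) (closure_nonempty_iff.1 ⟨x, c2⟩) hX.cl hX.sm
          sdiff_subset)
        (mem_of_crd (hkX.crd.diff_closed isClosed_closure) ⟨x, hxk, c3⟩ hX.cl hX.sm c4)
        (closure_minimal sdiff_subset hX.cl) (closure_minimal c4 hX.cl)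
        (closure_mono fun w hw => ⟨subset_closure hw, fun h => hw.2 (c5 h)⟩)) c2
        (subset_closure ⟨hxk, c3⟩)
    have c6 := hy.2 _ (ed _ (isClosed_closure (s := X \ k '' X)).isOpen_compl)
      ⟨subset_closure ⟨hx, c1⟩, hx⟩
    refine disjoint_left.1 hk' (closure_minimal (fun z hz => ?_) hkX.cl c6.1) rfl
    by_contra h
    exact hz.2 (subset_closure ⟨hz.1, h⟩)
  · refine tot_of_td hX.cl (sdiff_empty (s := X)).symm ed fun x _ y _ => ?_
    obtain ⟨k, hk⟩ := hS.thin.homog x y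
    exact ⟨k, image_empty _, hk, (dif k X _ hX (hX.image k) subset_rfl subset_rfl).inter_eq.le⟩

end Pool.Agent.Lib.MP_52f683_gt
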